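import Pool.Agent.Lib.TWA.Disc
import Pool.Agent.Lib.TWMF.F1
import Mathlib.RingTheory.NoetherNormalization
import Mathlib.RingTheory.Ideal.GoingUp

/-!
# TANK W, type II: the formal arc principle (note 3120, Theorem B, algebraic part)

`arc`: polynomial equations over `k` which have a non-constant solution in `k[[t]]` have solutions
`X(δ)` in the henselizations of `k(δ)`, `δ` of positive value, which are `p ^ e`-th powers, one of
whose coordinates has a pole at `δ`, and `X(δ)` is a henselian function of `δ`.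
-/

set_option autoImplicit false

open Polynomial Filter Topology

namespace Pool.Agent.TWA

open Pool.Agent.H15JM (RVal)
open Pool.Agent.LU1 (VPos)
open Pool.Agent.LUC (Cl clF)
open Pool.Agent.D2 (Ctx0)
open Pool.Agent.D2P (hen mem_hen)
open Pool.Agent.TW (WM13.Sq WM13.GS WM13.LTs WM13.App)

universe u

/-- Homomorphisms to algebraically closed fields extend to integral extensions. -/
theorem extend_integral {R A Ω : Type u} [CommRing R] [CommRing A] [IsDomain A] [Field Ω]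
    [IsAlgClosed Ω] (g : R →+* A) (hg : g.IsIntegral) (hinj : Function.Injective g)
    (χ : R →+* Ω) : ∃ ψ : A →+* Ω, ψ.comp g = χ := by
  classical
  let _ : Algebra R A := g.toAlgebra
  have hint : Algebra.IsIntegral R A := ⟨hg⟩
  have hP : (RingHom.ker χ).IsPrime := RingHom.ker_isPrime χ
  obtain ⟨Q, hQ, hQP⟩ := Ideal.exists_ideal_over_prime_of_isIntegral_of_isDomain (R := R) (S := A)
    (RingHom.ker χ) (by
      intro x hx
      have h1 : g x = 0 := hx
      rw [(injective_iff_map_eq_zero g).1 hinj x h1]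
      exact zero_mem _)
  have hle : RingHom.ker χ ≤ Q.comap g := hQP.ge
  obtain ⟨q, hq⟩ : ∃ q : R ⧸ RingHom.ker χ →+* A ⧸ Q, q = Ideal.quotientMap Q g hle := ⟨_, rfl⟩
  have hqinj : Function.Injective q := by
    rw [hq]
    exact Ideal.quotientMap_injective' hQP.le
  have hqint : q.IsIntegral := by
    intro y
    obtain ⟨a, rfl⟩ := Ideal.Quotient.mk_surjective y
    obtain ⟨P, hPm, hPa⟩ := hg a
    refine ⟨P.map (Ideal.Quotient.mk (RingHom.ker χ)), hPm.map _, ?_⟩
    have h1 := Polynomial.hom_eval₂ P g (Ideal.Quotient.mk Q) a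
    rw [hPa, map_zero] at h1
    rw [eval₂_map]
    have h2 : q.comp (Ideal.Quotient.mk (RingHom.ker χ)) = (Ideal.Quotient.mk Q).comp g := by
      ext x
      rw [hq]
      rfl
    rw [h2]
    exact h1.symm
  let _ : Algebra (R ⧸ RingHom.ker χ) (A ⧸ Q) := q.toAlgebra
  let _ : Algebra (R ⧸ RingHom.ker χ) Ω := (RingHom.kerLift χ).toAlgebra
  have hdom : IsDomain (R ⧸ RingHom.ker χ) := Ideal.Quotient.isDomain _
  have hdom' : IsDomain (A ⧸ Q) := Ideal.Quotient.isDomain _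
  have h1 : Module.IsTorsionFree (R ⧸ RingHom.ker χ) (A ⧸ Q) :=
    Module.isTorsionFree_iff_algebraMap_injective.2 hqinj
  have h2 : Module.IsTorsionFree (R ⧸ RingHom.ker χ) Ω :=
    Module.isTorsionFree_iff_algebraMap_injective.2 (RingHom.kerLift_injective χ)
  have h3 : Algebra.IsIntegral (R ⧸ RingHom.ker χ) (A ⧸ Q) := ⟨hqint⟩
  have h4 : Algebra.IsAlgebraic (R ⧸ RingHom.ker χ) (A ⧸ Q) := inferInstance
  obtain ⟨ψ, -⟩ : ∃ ψ : A ⧸ Q →ₐ[R ⧸ RingHom.ker χ] Ω, True := ⟨IsAlgClosed.lift, trivial⟩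
  refine ⟨ψ.toRingHom.comp (Ideal.Quotient.mk Q), ?_⟩
  ext x
  have h5 := ψ.commutes (Ideal.Quotient.mk (RingHom.ker χ) x)
  have h6 : algebraMap (R ⧸ RingHom.ker χ) (A ⧸ Q) (Ideal.Quotient.mk (RingHom.ker χ) x) =
      Ideal.Quotient.mk Q (g x) := by
    change q _ = _
    rw [hq]
    rfl
  rw [h6] at h5
  exact h5

variable {k Ω : Type u} [Field k] [Field Ω] [Algebra k Ω] {v : RVal Ω}

/-- **Points at infinity.** -/
theorem exists_point_inf [IsAlgClosed k] [IsAlgClosed Ω] (h : Ctx0 k v) {T : Ω} (hT0 : T ≠ 0)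
    (hT : 0 < v T) {N : ℕ} {S : Set (MvPolynomial (Fin N) k)} {c : Fin N → PowerSeries k}
    (hS : ∀ P ∈ S, MvPolynomial.aeval c P = 0)
    (hc : ∃ j, ∀ a : k, c j ≠ algebraMap k (PowerSeries k) a) :
    ∃ x : Fin N → Ω, (∀ P ∈ S, MvPolynomial.aeval x P = 0) ∧ (∃ j, ¬ v.Ge 0 (x j)) ∧
      ∀ j, IsAlgebraic (kd k T) (x j) := by
  classical
  obtain ⟨A, hA⟩ : ∃ A : Subalgebra k (PowerSeries k),
    A = (MvPolynomial.aeval c : MvPolynomial (Fin N) k →ₐ[k] PowerSeries k).range := ⟨_, rfl⟩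
  have hcA : ∀ j, c j ∈ A := fun j => by
    rw [hA]
    exact ⟨MvPolynomial.X j, MvPolynomial.aeval_X c j⟩
  obtain ⟨cA, hcA'⟩ : ∃ cA : Fin N → A, ∀ j, cA j = ⟨c j, hcA j⟩ := ⟨_, fun _ => rfl⟩
  have hsurj : Function.Surjective (MvPolynomial.aeval cA : MvPolynomial (Fin N) k →ₐ[k] A) := by
    rintro ⟨a, ha⟩
    have ha' := ha
    rw [hA] at ha'
    obtain ⟨P, hP⟩ := ha'
    refine ⟨P, Subtype.ext ?_⟩
    change ((MvPolynomial.aeval cA P : A) : PowerSeries k) = a
    rw [← hP]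
    have h1 : A.val.comp (MvPolynomial.aeval cA) = MvPolynomial.aeval c := by
      refine MvPolynomial.algHom_ext fun j => ?_
      rw [AlgHom.comp_apply, MvPolynomial.aeval_X, MvPolynomial.aeval_X, hcA' j]
      rfl
    exact congrArg (fun φ : MvPolynomial (Fin N) k →ₐ[k] PowerSeries k => φ P) h1
  have hft : Algebra.FiniteType k A := Algebra.FiniteType.of_surjective _ hsurj
  obtain ⟨s, g, hginj, hgint⟩ := exists_integral_inj_algHom_of_fg (k := k) (R := A)
  have hs : s ≠ 0 := by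
    rintro rfl
    obtain ⟨j, hj⟩ := hc
    have h1 : ((g : MvPolynomial (Fin 0) k →+* A).comp (MvPolynomial.isEmptyAlgEquiv k
        (Fin 0)).symm.toRingEquiv.toRingHom).IsIntegral :=
      RingHom.IsIntegral.trans _ _ (RingHom.isIntegral_of_surjective _
        (MvPolynomial.isEmptyAlgEquiv k (Fin 0)).symm.surjective) hgint
    obtain ⟨a, ha⟩ := (IsAlgClosed.ringHom_bijective_of_isIntegral _ h1).2 (cA j)
    refine hj a ?_
    have h2 : cA j = algebraMap k A a := by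
      rw [← ha]
      have h3 : (MvPolynomial.isEmptyAlgEquiv k (Fin 0)).symm a =
          algebraMap k (MvPolynomial (Fin 0) k) a :=
        (MvPolynomial.isEmptyAlgEquiv k (Fin 0)).symm.commutes a
      change g ((MvPolynomial.isEmptyAlgEquiv k (Fin 0)).symm a) = _
      rw [h3, g.commutes]
    have h4 := congrArg Subtype.val h2
    rw [hcA' j] at h4
    exact h4
  obtain ⟨s, rfl⟩ := Nat.exists_eq_succ_of_ne_zero hs
  obtain ⟨χ, hχ⟩ : ∃ χ : MvPolynomial (Fin (s + 1)) k →ₐ[k] Ω,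
    χ = MvPolynomial.aeval fun i => if i = 0 then T⁻¹ else 0 := ⟨_, rfl⟩
  obtain ⟨ψ, hψ⟩ := extend_integral g.toRingHom hgint hginj χ.toRingHom
  have hψg : ∀ r, ψ (g r) = χ r := fun r => congrArg (fun φ : _ →+* Ω => φ r) hψ
  have hcomm : ∀ a : k, ψ (algebraMap k A a) = algebraMap k Ω a := fun a => by
    rw [← g.commutes, hψg, χ.commutes]
  obtain ⟨ψk, hψk⟩ : ∃ ψk : A →ₐ[k] Ω, ∀ a, ψk a = ψ a :=
    ⟨AlgHom.mk ψ hcomm, fun _ => rfl⟩
  -- the values of `χ` are in `k(T)`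
  have hχk : ∀ r, χ r ∈ kd k T := by
    intro r
    rw [hχ]
    induction r using MvPolynomial.induction_on with
    | C a =>
      rw [MvPolynomial.aeval_C]
      exact (kd k T).algebraMap_mem a
    | add P Q hP hQ =>
      rw [map_add]
      exact add_mem hP hQ
    | mul_X P i hP =>
      rw [map_mul, MvPolynomial.aeval_X]
      refine mul_mem hP ?_
      split_ifs
      · exact inv_mem (IntermediateField.mem_adjoin_simple_self k T)
      · exact zero_mem _
  have halg : ∀ a : A, IsIntegral (kd k T) (ψk a) := by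
    intro a
    obtain ⟨P, hPm, hPa⟩ := hgint a
    let χ' : MvPolynomial (Fin (s + 1)) k →+* kd k T :=
      { toFun := fun r => ⟨χ r, hχk r⟩
        map_one' := Subtype.ext (map_one χ)
        map_mul' := fun _ _ => Subtype.ext (map_mul χ _ _)
        map_zero' := Subtype.ext (map_zero χ)
        map_add' := fun _ _ => Subtype.ext (map_add χ _ _) }
    refine ⟨P.map χ', hPm.map _, ?_⟩
    have h1 := Polynomial.hom_eval₂ P g.toRingHom ψ a
    rw [hPa, map_zero] at h1
    rw [eval₂_map, hψk]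
    have h2 : (algebraMap (kd k T) Ω).comp χ' = ψ.comp g.toRingHom :=
      RingHom.ext fun r => (hψg r).symm
    rw [h2]
    exact h1.symm
  refine ⟨fun j => ψk (cA j), fun P hP => ?_, ?_, fun j => (halg (cA j)).isAlgebraic⟩
  · have h1 : MvPolynomial.aeval (fun j => ψk (cA j)) P = ψk (MvPolynomial.aeval cA P) := by
      have h2 : ψk.comp (MvPolynomial.aeval cA) = MvPolynomial.aeval fun j => ψk (cA j) := by
        refine MvPolynomial.algHom_ext fun j => ?_
        rw [AlgHom.comp_apply, MvPolynomial.aeval_X, MvPolynomial.aeval_X]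
      rw [← h2]
      rfl
    have h2 : MvPolynomial.aeval cA P = 0 := by
      refine Subtype.ext ?_
      have h3 : A.val.comp (MvPolynomial.aeval cA) = MvPolynomial.aeval c := by
        refine MvPolynomial.algHom_ext fun j => ?_
        rw [AlgHom.comp_apply, MvPolynomial.aeval_X, MvPolynomial.aeval_X, hcA' j]
        rfl
      have h4 := congrArg (fun φ : MvPolynomial (Fin N) k →ₐ[k] PowerSeries k => φ P) h3
      have h5 : (MvPolynomial.aeval cA P : A).val = MvPolynomial.aeval c P := h4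
      rw [h5, hS P hP]
      rfl
    rw [h1, h2, map_zero]
  · by_contra hcon
    push Not at hcon
    -- the values of `ψk` are `≥ 0`
    have h1 : ∀ P : MvPolynomial (Fin N) k, v.Ge 0 (ψk (MvPolynomial.aeval cA P)) := by
      intro P
      induction P using MvPolynomial.induction_on with
      | C a =>
        rw [MvPolynomial.aeval_C, ψk.commutes]
        exact h.ge a
      | add P Q hP hQ =>
        rw [map_add, map_add]
        exact hP.add hQ
      | mul_X P i hP =>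
        rw [map_mul, map_mul, MvPolynomial.aeval_X]
        have h2 := hP.mul (hcon i)
        rwa [add_zero] at h2
    obtain ⟨P, hP⟩ := hsurj (g (MvPolynomial.X 0))
    have h2 := h1 P
    rw [hP, hψk, hψg, hχ, MvPolynomial.aeval_X, if_pos rfl] at h2
    have h3 := h2 (inv_ne_zero hT0)
    rw [v.map_inv hT0] at h3
    linarith

/-- Homogenization. -/
theorem exists_homog {N : ℕ} (Ω : Type u) [Field Ω] [Algebra k Ω] (P : MvPolynomial (Fin N) k) :
    ∃ (D : ℕ) (H : MvPolynomial (Option (Fin N)) k), ∀ (w : Ω) (z : Fin N → Ω), w ≠ 0 →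
      MvPolynomial.aeval (fun o : Option (Fin N) => o.elim w z) H =
        w ^ D * MvPolynomial.aeval (fun j => z j / w) P := by
  induction P using MvPolynomial.induction_on with
  | C a =>
    refine ⟨0, MvPolynomial.C a, fun w z _ => ?_⟩
    rw [MvPolynomial.aeval_C, MvPolynomial.aeval_C, pow_zero, one_mul]
  | add P Q hP hQ =>
    obtain ⟨D, H, hH⟩ := hP
    obtain ⟨D', H', hH'⟩ := hQ
    refine ⟨D + D', MvPolynomial.X none ^ D' * H + MvPolynomial.X none ^ D * H',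
      fun w z hw => ?_⟩
    rw [map_add, map_mul, map_mul, map_pow, map_pow, MvPolynomial.aeval_X, hH w z hw, hH' w z hw,
      map_add]
    change w ^ D' * _ + w ^ D * _ = _
    ring
  | mul_X P j hP =>
    obtain ⟨D, H, hH⟩ := hP
    refine ⟨D + 1, H * MvPolynomial.X (some j), fun w z hw => ?_⟩
    rw [map_mul, hH w z hw, MvPolynomial.aeval_X, map_mul, MvPolynomial.aeval_X]
    change w ^ D * _ * z j = _
    field_simp
    ring

/-- **The formal arc principle**, pointwise. -/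
theorem arc_point [IsAlgClosed k] [IsAlgClosed Ω] (p : ℕ) [hp : Fact p.Prime] [CharP k p]
    (h : Ctx0 k v) (hv : ∃ T : Ω, T ≠ 0 ∧ 0 < v T) {N : ℕ} {S : Set (MvPolynomial (Fin N) k)}
    {c : Fin N → PowerSeries k} (hS : ∀ P ∈ S, MvPolynomial.aeval c P = 0)
    (hc : ∃ j, ∀ a : k, c j ≠ algebraMap k (PowerSeries k) a) (e : ℕ) :
    ∃ (M : ℕ) (G : Fin N → PowerSeries k) (j₀ : Fin N) (m : ℕ), m < M ∧
      (∀ i < m, PowerSeries.coeff i (G j₀) = 0) ∧ PowerSeries.coeff m (G j₀) ≠ 0 ∧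
      (∀ j, ∃ Q : Polynomial (Polynomial k), Q ≠ 0 ∧
        Polynomial.eval₂ Polynomial.coeToPowerSeries.ringHom (G j) Q = 0) ∧
      ∀ (δ : Ω) (z : Fin N → Ω), δ ≠ 0 → 0 < v δ → (∀ j, Ev v δ (G j) (z j)) →
        ∀ P ∈ S, MvPolynomial.aeval (fun j => (z j / δ ^ M) ^ p ^ e) P = 0 := by
  classical
  obtain ⟨T, hT0, hT⟩ := hv
  obtain ⟨x, hxS, ⟨j₀, hj₀⟩, hxalg⟩ := exists_point_inf h hT0 hT hS hc
  have hq : 0 < p ^ e := pow_pos hp.out.pos e
  choose Y hY using fun j => IsAlgClosed.exists_pow_nat_eq (x j) hq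
  have hYalg : ∀ j, IsAlgebraic (kd k T) (Y j) := fun j =>
    IsAlgebraic.of_pow hq (by rw [hY j]; exact hxalg j)
  have hfd : FiniteDimensional (kd k T) (IntermediateField.adjoin (kd k T) (Set.range Y)) :=
    IntermediateField.finiteDimensional_adjoin fun y hy => by
      obtain ⟨j, rfl⟩ := hy
      exact (hYalg j).isIntegral
  obtain ⟨π, hπ, hπ0, hπv, hmin⟩ := exists_unif h hT0 hT
    (IntermediateField.adjoin (kd k T) (Set.range Y))
  have hYM : ∀ j, Y j ∈ IntermediateField.adjoin (kd k T) (Set.range Y) := fun j =>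
    IntermediateField.subset_adjoin _ _ ⟨j, rfl⟩
  have hMalg : ∀ f ∈ IntermediateField.adjoin (kd k T) (Set.range Y), IsAlgebraic (kd k T) f := by
    intro f hf
    have h1 : IsIntegral (kd k T) (⟨f, hf⟩ : IntermediateField.adjoin (kd k T) (Set.range Y)) :=
      Algebra.IsIntegral.isIntegral _
    exact (h1.map (IntermediateField.adjoin (kd k T) (Set.range Y)).val).isAlgebraic
  have hMalg' : ∀ f ∈ IntermediateField.adjoin (kd k T) (Set.range Y), IsAlgebraic (kd k π) f :=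
    fun f hf => isAlgebraic_kd h hπ0 hπv (hMalg π hπ) (hMalg f hf)
  -- the exponent
  have hexp : ∀ j, ∃ m : ℕ, ∀ M : ℕ, m ≤ M → v.Ge 0 (π ^ M * Y j) := by
    intro j
    obtain ⟨m, hm⟩ := exists_nat_gt (-(v (Y j)) / v π)
    rw [div_lt_iff₀ hπv] at hm
    refine ⟨m, fun M hM h0 => ?_⟩
    have hY0 : Y j ≠ 0 := right_ne_zero_of_mul h0
    rw [v.map_mul (pow_ne_zero _ hπ0) hY0, v.map_pow hπ0]
    have h1 : (m : ℝ) * v π ≤ M * v π := mul_le_mul_of_nonneg_right (by exact_mod_cast hM) hπv.le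
    linarith
  choose mj hmj using hexp
  obtain ⟨M, hM⟩ : ∃ M : ℕ, ∀ j, mj j ≤ M := ⟨∑ j, mj j, fun j =>
    Finset.single_le_sum (f := mj) (fun _ _ => Nat.zero_le _) (Finset.mem_univ j)⟩
  have hZge : ∀ j, v.Ge 0 (π ^ M * Y j) := fun j => hmj j M (hM j)
  have hZM : ∀ j, π ^ M * Y j ∈ IntermediateField.adjoin (kd k T) (Set.range Y) := fun j =>
    mul_mem (pow_mem hπ M) (hYM j)
  choose G hG using fun j => exists_expansion h _ hπ hπ0 hmin (hZM j) (hZge j)
  -- the pole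
  have hYj₀ : Y j₀ ≠ 0 ∧ v (Y j₀) < 0 := by
    unfold RVal.Ge at hj₀
    push Not at hj₀
    have h1 : Y j₀ ≠ 0 := by
      intro h0
      exact hj₀.1 (by rw [← hY j₀, h0, zero_pow hq.ne'])
    refine ⟨h1, ?_⟩
    have h2 := hj₀.2
    rw [← hY j₀, v.map_pow h1] at h2
    by_contra hcon
    push Not at hcon
    have h3 : (0 : ℝ) ≤ ((p ^ e : ℕ) : ℝ) * v (Y j₀) := mul_nonneg (Nat.cast_nonneg _) hcon
    linarith
  have hG0 : G j₀ ≠ 0 := by
    intro h0
    have h1 := hG j₀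
    rw [h0] at h1
    exact (mul_ne_zero (pow_ne_zero _ hπ0) hYj₀.1) (h1.zero_eq hπv)
  obtain ⟨m, hm1, hm2⟩ := exists_coeff hG0
  have hmM : m < M := by
    have h1 := ((hG j₀).val h hπ0 hπv hm1 hm2).2.1
    rw [v.map_mul (pow_ne_zero _ hπ0) hYj₀.1, v.map_pow hπ0] at h1
    have h2 : (m : ℝ) * v π < M * v π := by
      rw [← h1]
      linarith [hYj₀.2]
    have h3 := lt_of_mul_lt_mul_right h2 hπv.le
    exact_mod_cast h3
  refine ⟨M, G, j₀, m, hmM, hm1, hm2, fun j => ?_, fun δ z hδ0 hδ hz P hP => ?_⟩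
  · obtain ⟨Q, hQ0, hQ⟩ := exists_eval₂ (hMalg' _ (hZM j))
    refine ⟨Q, hQ0, ?_⟩
    have h1 := Ev.eval₂ h hπv (hG j) Q
    rw [hQ] at h1
    exact h1.eq_zero h hπ0 hπv
  · obtain ⟨D, H, hH⟩ := exists_homog Ω P
    -- the equation over `k[[t]]`
    have hser : MvPolynomial.aeval (fun o : Option (Fin N) => o.elim
        ((PowerSeries.X : PowerSeries k) ^ (M * p ^ e)) fun j => G j ^ p ^ e) H = 0 := by
      have h1 : Ev v π (MvPolynomial.aeval (fun o : Option (Fin N) => o.elim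
          ((PowerSeries.X : PowerSeries k) ^ (M * p ^ e)) fun j => G j ^ p ^ e) H)
          (MvPolynomial.aeval (fun o : Option (Fin N) => o.elim (π ^ (M * p ^ e))
            fun j => (π ^ M * Y j) ^ p ^ e) H) := by
        refine Ev.aeval h hπv (fun o => ?_) H
        rcases o with _ | j
        · exact (Ev.var h hπv).pow h hπv _
        · exact (hG j).pow h hπv _
      rw [hH _ _ (pow_ne_zero _ hπ0)] at h1
      have h2 : (fun j => (π ^ M * Y j) ^ p ^ e / π ^ (M * p ^ e)) = x := by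
        funext j
        rw [mul_pow, ← pow_mul, mul_div_cancel_left₀ _ (pow_ne_zero _ hπ0), hY]
      rw [h2, hxS P hP, mul_zero] at h1
      exact h1.eq_zero h hπ0 hπv
    have h1 : Ev v δ (MvPolynomial.aeval (fun o : Option (Fin N) => o.elim
        ((PowerSeries.X : PowerSeries k) ^ (M * p ^ e)) fun j => G j ^ p ^ e) H)
        (MvPolynomial.aeval (fun o : Option (Fin N) => o.elim (δ ^ (M * p ^ e))
          fun j => z j ^ p ^ e) H) := by
      refine Ev.aeval h hδ (fun o => ?_) H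
      rcases o with _ | j
      · exact (Ev.var h hδ).pow h hδ _
      · exact (hz j).pow h hδ _
    rw [hser] at h1
    have h2 := h1.zero_eq hδ
    rw [hH _ _ (pow_ne_zero _ hδ0)] at h2
    have h3 : (fun j => z j ^ p ^ e / δ ^ (M * p ^ e)) = fun j => (z j / δ ^ M) ^ p ^ e := by
      funext j
      rw [div_pow, ← pow_mul]
    rw [h3] at h2
    exact (mul_eq_zero.1 h2).resolve_left (pow_ne_zero _ (pow_ne_zero _ hδ0))

section Seq

variable {δ : ℕ → Ω} {ρ : ℝ}

/-- The values of a power series at a sequence are a limit of rational functions. -/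
theorem app_of_ev {hsq : TW.WM13.Sq v δ ρ} (hρ : 0 < ρ) {F : PowerSeries k} {z : ℕ → Ω}
    (hz : ∀ i, Ev v (δ i) F (z i)) : TW.WM13.App hsq z := by
  refine ⟨Eventually.of_forall fun i => (hz i).ge, fun C => ?_⟩
  obtain ⟨n, hn⟩ := exists_nat_gt (C / (ρ / 2))
  rw [div_lt_iff₀ (by linarith)] at hn
  refine ⟨algebraMap (Polynomial Ω) (FractionRing (Polynomial Ω))
    ((PowerSeries.trunc n F).map (algebraMap k Ω)), _, TW.WM13.th_algebraMap hsq _, ?_⟩
  have h1 : ∀ᶠ i in atTop, ρ / 2 ≤ v (δ i) := hsq.lim.eventually_const_le (by linarith)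
  filter_upwards [h1] with i hi
  have h2 := hz i n
  rw [aeval_def, eval₂_eq_eval_map] at h2
  refine h2.mono ?_
  have h3 : (n : ℝ) * (ρ / 2) ≤ n * v (δ i) := mul_le_mul_of_nonneg_left hi (Nat.cast_nonneg n)
  linarith

theorem gs_of_ev {hsq : TW.WM13.Sq v δ ρ} (hρ : 0 < ρ) (h : Ctx0 k v) (hδ : ∀ i, 0 < v (δ i))
    {F : PowerSeries k} {Q : Polynomial (Polynomial k)} (hQ : Q ≠ 0)
    (hF : Polynomial.eval₂ Polynomial.coeToPowerSeries.ringHom F Q = 0) {z : ℕ → Ω}
    (hz : ∀ i, Ev v (δ i) F (z i)) : TW.WM13.GS hsq z where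
  alg := by
    refine TW.WM13.isIntegralElem_of_root hsq
      (Q := Q.map (Polynomial.mapRingHom (algebraMap k Ω))) ?_ ?_
    · exact (Polynomial.map_ne_zero_iff
        (Polynomial.map_injective _ (algebraMap k Ω).injective)).2 hQ
    · refine Eventually.of_forall fun i => ?_
      have h1 := Ev.eval₂ h (hδ i) (hz i) Q
      rw [hF] at h1
      have h2 := h1.zero_eq (hδ i)
      rw [Polynomial.map_map, eval_map]
      rw [← h2]
      congr 1
      refine RingHom.ext fun P => ?_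
      change Polynomial.eval (δ i) (P.map (algebraMap k Ω)) = Polynomial.aeval (δ i) P
      rw [aeval_def, eval₂_eq_eval_map]
  app := app_of_ev hρ hz

theorem lts_of_ev (h : Ctx0 k v) (hδ0 : ∀ i, δ i ≠ 0) (hδ : ∀ i, 0 < v (δ i))
    {F : PowerSeries k} {z : ℕ → Ω} (hz : ∀ i, Ev v (δ i) F (z i)) {m : ℕ}
    (hF : ∀ i < m, PowerSeries.coeff i F = 0) (hm : PowerSeries.coeff m F ≠ 0) :
    TW.WM13.LTs v δ z (algebraMap k Ω (PowerSeries.coeff m F)) m := by
  refine ⟨by rw [Ne, map_eq_zero]; exact hm, Eventually.of_forall fun i => ?_⟩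
  have h1 := ((hz i).val h (hδ0 i) (hδ i) hF hm).2.2
  rw [h.triv _ hm, zero_add, zpow_natCast]
  refine TWM.Gt.of_ge h1 ?_
  have h2 := hδ i
  push_cast
  linarith

theorem lts_pow (hδ0 : ∀ i, δ i ≠ 0) {f : ℕ → Ω} {a : Ω} {m : ℤ} (hf : TW.WM13.LTs v δ f a m)
    (n : ℕ) : TW.WM13.LTs v δ (fun i => f i ^ n) (a ^ n) (n * m) := by
  induction n with
  | zero =>
    refine ⟨by rw [pow_zero]; exact one_ne_zero, Eventually.of_forall fun i => ?_⟩
    have h1 : f i ^ 0 - a ^ 0 * δ i ^ (((0 : ℕ) : ℤ) * m) = 0 := by simp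
    rw [h1]
    exact TWM.Gt.zero
  | succ n ih =>
    have h1 := ih.mul hδ0 hf
    have h2 : ((n : ℕ) : ℤ) * m + m = ((n + 1 : ℕ) : ℤ) * m := by push_cast; ring
    rw [h2] at h1
    simpa only [pow_succ] using h1

theorem lts_delta (n : ℤ) : TW.WM13.LTs v δ (fun i => δ i ^ n) 1 n := by
  refine ⟨one_ne_zero, Eventually.of_forall fun i => ?_⟩
  rw [one_mul, sub_self]
  exact TWM.Gt.zero

/-- **The formal arc principle** (Theorem B of note 3120, algebraic part). -/
theorem arc [IsAlgClosed k] [IsAlgClosed Ω] (p : ℕ) [hp : Fact p.Prime] [CharP k p]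
    (h : Ctx0 k v) (hv : ∃ T : Ω, T ≠ 0 ∧ 0 < v T) {N : ℕ} {S : Set (MvPolynomial (Fin N) k)}
    {c : Fin N → PowerSeries k} (hS : ∀ P ∈ S, MvPolynomial.aeval c P = 0)
    (hc : ∃ j, ∀ a : k, c j ≠ algebraMap k (PowerSeries k) a) (e : ℕ) :
    ∃ (M : ℕ) (j₀ : Fin N) (a : k) (m : ℕ), a ≠ 0 ∧ 0 < m ∧
      ∀ (δ : ℕ → Ω) (ρ : ℝ) (hsq : TW.WM13.Sq v δ ρ), 0 < ρ → (∀ i, 0 < v (δ i)) →
        ∃ Y : ℕ → Fin N → Ω, (∀ i j, Y i j ∈ hen v (kd k (δ i))) ∧
          (∀ j, TW.WM13.FGS hsq fun i => Y i j) ∧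
          (∀ i, ∀ P ∈ S, MvPolynomial.aeval (fun j => Y i j ^ p ^ e) P = 0) ∧
          (∀ i j, v.Ge (-(M * v (δ i))) (Y i j ^ p ^ e)) ∧
          (∀ j, TW.WM13.GS hsq fun i => δ i ^ M * Y i j ^ p ^ e) ∧
          TW.WM13.LTs v δ (fun i => Y i j₀ ^ p ^ e) (algebraMap k Ω a) (-m) := by
  classical
  obtain ⟨M, G, j₀, m, hmM, hm1, hm2, hQ, hP⟩ := arc_point p h hv hS hc e
  choose Q hQ0 hQ using hQ
  have hq : 0 < p ^ e := pow_pos hp.out.pos e
  refine ⟨M * p ^ e, j₀, PowerSeries.coeff m (G j₀) ^ p ^ e, p ^ e * (M - m), pow_ne_zero _ hm2,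
    Nat.mul_pos hq (by omega), fun δ ρ hsq hρ hδ => ?_⟩
  have hex : ∀ i j, ∃ z : Ω, Ev v (δ i) (G j) z := fun i j =>
    exists_ev h (hsq.ne i) (hδ i) (hQ0 j) (hQ j)
  choose z hz using hex
  have hzhen : ∀ i j, z i j ∈ hen v (kd k (δ i)) := by
    intro i j
    refine (hz i j).mem_hen p h (hsq.ne i) (hδ i) ?_
    refine isAlgebraic_of_eval₂ h (hsq.ne i) (hδ i) (hQ0 j) ?_
    have h1 := Ev.eval₂ h (hδ i) (hz i j) (Q j)
    rw [hQ j] at h1
    exact h1.zero_eq (hδ i)
  have hpow : ∀ i j, δ i ^ (M * p ^ e) * (z i j / δ i ^ M) ^ p ^ e = z i j ^ p ^ e := by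
    intro i j
    rw [div_pow, ← pow_mul, mul_div_cancel₀ _ (pow_ne_zero _ (hsq.ne i))]
  refine ⟨fun i j => z i j / δ i ^ M, fun i j => ?_, fun j => ?_, fun i P hPS => ?_,
    fun i j => ?_, fun j => ?_, ?_⟩
  · exact div_mem (hzhen i j) (pow_mem (D2P.le_hen _
      (IntermediateField.mem_adjoin_simple_self k (δ i))) M)
  · have h1 : TW.WM13.GS hsq fun i => z i j :=
      gs_of_ev hρ h hδ (hQ0 j) (hQ j) fun i => hz i j
    refine (h1.fgs.mul (TW.WM13.FGS.zpow hsq (-(M : ℤ)))).congr (Eventually.of_forall fun i => ?_)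
    simp only [zpow_neg, zpow_natCast, div_eq_mul_inv]
  · exact hP (δ i) (z i) (hsq.ne i) (hδ i) (hz i) P hPS
  · intro h0
    have h1 : v.Ge 0 (z i j ^ p ^ e) := ((hz i j).pow h (hδ i) _).ge
    rw [← hpow i j] at h1
    have h2 := h1 (mul_ne_zero (pow_ne_zero _ (hsq.ne i)) h0)
    rw [v.map_mul (pow_ne_zero _ (hsq.ne i)) h0, v.map_pow (hsq.ne i)] at h2
    linarith
  · have h1 : TW.WM13.GS hsq fun i => z i j :=
      gs_of_ev hρ h hδ (hQ0 j) (hQ j) fun i => hz i j
    exact (h1.pow (p ^ e)).congr (Eventually.of_forall fun i => (hpow i j).symm)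
  · have h1 : TW.WM13.LTs v δ (fun i => z i j₀) (algebraMap k Ω (PowerSeries.coeff m (G j₀))) m :=
      lts_of_ev h hsq.ne hδ (fun i => hz i j₀) hm1 hm2
    have h2 := lts_pow hsq.ne (h1.mul hsq.ne (lts_delta (v := v) (δ := δ) (-(M : ℤ)))) (p ^ e)
    have e1 : ((p ^ e : ℕ) : ℤ) * (m + -(M : ℤ)) = -((p ^ e * (M - m) : ℕ) : ℤ) := by
      rw [Nat.cast_mul, Nat.cast_sub hmM.le]
      ring
    rw [e1, mul_one, ← map_pow] at h2
    refine h2.congr (Eventually.of_forall fun i => ?_)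
    simp only [zpow_neg, zpow_natCast, div_eq_mul_inv]

end Seq

end Pool.Agent.TWA
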