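import Pool.Agent.Lib.TWA.Sep
import Pool.Agent.Lib.D2P.A2sAux

/-!
# TANK W, type II (note 3120, Theorem B): expansions in a uniformizer

A finite extension of `k(T)` (`T` of positive value) inside `Ω` has a uniformizer `π`; all its
elements of value `≥ 0` are values at `π` of power series over `k`, and are algebraic over `k(π)`.
-/

set_option autoImplicit false

open Polynomial Filter

namespace Pool.Agent.TWA

open Pool.Agent.H15JM (RVal)
open Pool.Agent.LU1 (VPos)
open Pool.Agent.LUC (Cl clF)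
open Pool.Agent.D2 (Ctx0)
open Pool.Agent.D2P (hen mem_hen)

universe u

variable {k Ω : Type u} [Field k] [Field Ω] [Algebra k Ω] {v : RVal Ω} {T : Ω}

/-- The values of a finite extension of `k(T)`. -/
theorem val_disc (h : Ctx0 k v) (hT0 : T ≠ 0) (hT : 0 < v T) (M : IntermediateField (kd k T) Ω)
    [FiniteDimensional (kd k T) M] {f : Ω} (hf : f ∈ M) (hf0 : f ≠ 0) :
    ∃ m : ℤ, (((Module.finrank (kd k T) M).factorial : ℕ) : ℝ) * v f = m * v T := by
  classical
  obtain ⟨P, hP⟩ : ∃ P, P = minpoly (kd k T) (⟨f, hf⟩ : M) := ⟨_, rfl⟩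
  have hint : IsIntegral (kd k T) (⟨f, hf⟩ : M) := Algebra.IsIntegral.isIntegral _
  have hP0 : P ≠ 0 := by
    rw [hP]
    exact minpoly.ne_zero hint
  have hfree : Module.Free (kd k T) M := Module.Free.of_divisionRing _ _
  have hPd : P.natDegree ≤ Module.finrank (kd k T) M := by
    rw [hP]
    exact minpoly.natDegree_le _
  have hPf : ∑ i ∈ P.support, (P.coeff i : Ω) * f ^ i = 0 := by
    have h1 : aeval (⟨f, hf⟩ : M) P = 0 := by
      rw [hP]
      exact minpoly.aeval _ _
    have h2 := congrArg (algebraMap M Ω) h1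
    rw [map_zero, ← aeval_algebraMap_apply, aeval_def, eval₂_eq_sum, Polynomial.sum_def] at h2
    exact h2
  have hc : ∀ i ∈ P.support, (P.coeff i : Ω) ≠ 0 := by
    intro i hi h0
    exact (mem_support_iff.1 hi) (Subtype.ext h0)
  have hne : ∃ i ∈ P.support, ∃ j ∈ P.support, i < j ∧
      v ((P.coeff i : Ω) * f ^ i) = v ((P.coeff j : Ω) * f ^ j) := by
    by_contra hcon
    push Not at hcon
    have h1 := H15JM.RVal.sum_ne_zero v P.support (fun i => (P.coeff i : Ω) * f ^ i)
      (fun i hi => mul_ne_zero (hc i hi) (pow_ne_zero _ hf0)) (by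
        intro i hi j hj hij
        by_contra hne
        rcases lt_or_gt_of_ne hne with h2 | h2
        · exact hcon i hi j hj h2 hij
        · exact hcon j hj i hi h2 hij.symm) (support_nonempty.2 hP0)
    exact h1.1 hPf
  obtain ⟨i, hi, j, hj, hij, hv⟩ := hne
  obtain ⟨a, ha⟩ := val_kd h hT0 hT (P.coeff i).2 (hc i hi)
  obtain ⟨b, hb⟩ := val_kd h hT0 hT (P.coeff j).2 (hc j hj)
  rw [v.map_mul (hc i hi) (pow_ne_zero _ hf0), v.map_mul (hc j hj) (pow_ne_zero _ hf0),
    v.map_pow hf0, v.map_pow hf0, ha, hb] at hv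
  have hjd : j ≤ P.natDegree := le_natDegree_of_mem_supp j hj
  obtain ⟨c, hc'⟩ : (j - i) ∣ (Module.finrank (kd k T) M).factorial :=
    Nat.dvd_factorial (by omega) (by omega)
  refine ⟨c * (a - b), ?_⟩
  rw [hc']
  have h3 : ((j - i : ℕ) : ℝ) = (j : ℝ) - i := Nat.cast_sub hij.le
  push_cast
  rw [h3]
  linear_combination -(c : ℝ) * hv

/-- The uniformizer. -/
theorem exists_unif (h : Ctx0 k v) (hT0 : T ≠ 0) (hT : 0 < v T)
    (M : IntermediateField (kd k T) Ω) [FiniteDimensional (kd k T) M] :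
    ∃ π ∈ M, π ≠ 0 ∧ 0 < v π ∧ ∀ f ∈ M, f ≠ 0 → 0 < v f → v π ≤ v f := by
  classical
  obtain ⟨d, hd⟩ : ∃ d : ℕ, d = (Module.finrank (kd k T) M).factorial := ⟨_, rfl⟩
  have hd0 : 0 < d := by
    rw [hd]
    exact Nat.factorial_pos _
  have hdR : (0 : ℝ) < d := by exact_mod_cast hd0
  have hval : ∀ f ∈ M, f ≠ 0 → ∃ m : ℤ, (d : ℝ) * v f = m * v T := by
    intro f hf hf0
    rw [hd]
    exact val_disc h hT0 hT M hf hf0
  have hex : ∃ n : ℕ, 0 < n ∧ ∃ f ∈ M, f ≠ 0 ∧ (d : ℝ) * v f = n * v T := by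
    refine ⟨d, hd0, T, ?_, hT0, rfl⟩
    exact M.algebraMap_mem (⟨T, IntermediateField.mem_adjoin_simple_self k T⟩ : kd k T)
  obtain ⟨hn0, π, hπ, hπ0, hπv⟩ := Nat.find_spec hex
  have hnR : (0 : ℝ) < (Nat.find hex : ℕ) := by exact_mod_cast hn0
  have hπpos : 0 < v π := by
    by_contra hcon
    push Not at hcon
    have h1 : (0 : ℝ) < (Nat.find hex : ℕ) * v T := mul_pos hnR hT
    rw [← hπv] at h1
    nlinarith
  refine ⟨π, hπ, hπ0, hπpos, fun f hf hf0 hfv => ?_⟩
  obtain ⟨m, hm⟩ := hval f hf hf0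
  have hm0 : 0 < m := by
    have h1 : (0 : ℝ) < m * v T := by
      rw [← hm]
      exact mul_pos hdR hfv
    have h2 : (0 : ℝ) < m := pos_of_mul_pos_left h1 hT.le
    exact_mod_cast h2
  have h3 : Nat.find hex ≤ m.toNat := by
    refine Nat.find_min' hex ⟨by omega, f, hf, hf0, ?_⟩
    rw [hm]
    congr 1
    have h4 : ((m.toNat : ℕ) : ℤ) = m := Int.toNat_of_nonneg hm0.le
    exact_mod_cast h4.symm
  have h4 : ((Nat.find hex : ℕ) : ℝ) ≤ m := by
    have h5 : ((Nat.find hex : ℕ) : ℤ) ≤ m := by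
      have := Int.toNat_of_nonneg hm0.le
      omega
    exact_mod_cast h5
  have h5 : (d : ℝ) * v π ≤ d * v f := by
    rw [hπv, hm]
    exact mul_le_mul_of_nonneg_right h4 hT.le
  exact le_of_mul_le_mul_left h5 hdR

/-- **Expansions.** -/
theorem exists_expansion (h : Ctx0 k v)
    (M : IntermediateField (kd k T) Ω) {π : Ω} (hπ : π ∈ M) (hπ0 : π ≠ 0)
    (hmin : ∀ f ∈ M, f ≠ 0 → 0 < v f → v π ≤ v f) {f : Ω} (hf : f ∈ M) (hf0 : v.Ge 0 f) :
    ∃ F : PowerSeries k, Ev v π F f := by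
  classical
  have hstep : ∀ g : {g : Ω // g ∈ M ∧ v.Ge 0 g}, ∃ (c : k) (g' : {g : Ω // g ∈ M ∧ v.Ge 0 g}),
      (g : Ω) = algebraMap k Ω c + π * g' := by
    rintro ⟨g, hg, hg0⟩
    obtain ⟨c, hc⟩ := h.residue hg0
    have hcM : algebraMap k Ω c ∈ M := M.algebraMap_mem (algebraMap k (kd k T) c)
    refine ⟨c, ⟨(g - algebraMap k Ω c) / π, div_mem (sub_mem hg hcM) hπ, ?_⟩, ?_⟩
    · intro h0
      have h1 : g - algebraMap k Ω c ≠ 0 := fun h2 => h0 (by rw [h2, zero_div])
      rw [v.map_div h1 hπ0, sub_nonneg]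
      exact hmin _ (sub_mem hg hcM) h1 (hc h1)
    · change g = algebraMap k Ω c + π * ((g - algebraMap k Ω c) / π)
      rw [mul_div_cancel₀ _ hπ0]
      ring
  choose c s hs using hstep
  obtain ⟨g, hg0, hg⟩ : ∃ g : ℕ → {g : Ω // g ∈ M ∧ v.Ge 0 g},
      g 0 = ⟨f, hf, hf0⟩ ∧ ∀ n, g (n + 1) = s (g n) :=
    ⟨fun n => s^[n] ⟨f, hf, hf0⟩, rfl, fun n => Function.iterate_succ_apply' s n _⟩
  refine ⟨PowerSeries.mk fun n => c (g n), fun n => ?_⟩
  have key : ∀ n : ℕ, f - aeval π (PowerSeries.trunc n (PowerSeries.mk fun n => c (g n))) =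
      π ^ n * (g n : Ω) := by
    intro n
    induction n with
    | zero =>
      rw [PowerSeries.trunc_zero', map_zero, sub_zero, pow_zero, one_mul, hg0]
    | succ n ih =>
      rw [PowerSeries.trunc_succ, map_add, ← sub_sub, ih, aeval_monomial, PowerSeries.coeff_mk,
        hg, hs (g n), pow_succ]
      ring
  rw [key]
  have h1 : v.Ge (n * v π) (π ^ n) := fun _ => by rw [v.map_pow hπ0]
  have h2 := h1.mul (g n).2.2
  rwa [add_zero] at h2

/-- Elements of positive value are transcendental over `k`. -/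
theorem transcendental_of_pos (h : Ctx0 k v) {π : Ω} (hπ0 : π ≠ 0) (hπ : 0 < v π) :
    Transcendental k π := by
  rw [transcendental_iff]
  intro P hP
  by_contra h0
  exact aeval_ne_zero h hπ0 hπ h0 hP

theorem kd_eq (π : Ω) : LU1.adj (⊥ : IntermediateField k Ω) π = kd k π := bot_sup_eq _

/-- Algebraicity over `k(π)`. -/
theorem isAlgebraic_kd (h : Ctx0 k v) {π : Ω} (hπ0 : π ≠ 0) (hπ : 0 < v π)
    (hπT : IsAlgebraic (kd k T) π) {f : Ω} (hf : IsAlgebraic (kd k T) f) :
    IsAlgebraic (kd k π) f := by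
  have h1 : Transcendental (⊥ : IntermediateField k Ω) π := by
    have h2 := transcendental_of_pos h hπ0 hπ
    intro h3
    refine h2 ?_
    have h4 : Algebra.IsAlgebraic k (⊥ : IntermediateField k Ω) := by
      refine ⟨fun x => ?_⟩
      obtain ⟨a, ha⟩ := IntermediateField.mem_bot.1 x.2
      have h5 : x = algebraMap k (⊥ : IntermediateField k Ω) a := Subtype.ext ha.symm
      rw [h5]
      exact isAlgebraic_algebraMap a
    exact IsAlgebraic.restrictScalars k h3
  have h2 : IsAlgebraic (kd k π) T := by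
    rw [← kd_eq]
    refine D2P.alg_exchange h1 ?_
    rw [kd_eq]
    exact hπT
  -- `f` is algebraic over `k(π)(T)`
  have h3 : kd k T ≤ LU1.adj (kd k π) T := by
    rw [IntermediateField.adjoin_le_iff, Set.singleton_subset_iff]
    exact (D2P.mem_adj_self (kd k π) T).1
  have h4 : IsAlgebraic (LU1.adj (kd k π) T) f := D2P.isAlgebraic_mono h3 hf
  have h5 : IsAlgebraic (IntermediateField.adjoin (kd k π) {T}) f := by
    have h6 := h4
    rw [← D2P.adj_eq] at h6
    exact h6
  have h7 : Algebra.IsAlgebraic (kd k π) (IntermediateField.adjoin (kd k π) {T}) := by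
    have h8 := IntermediateField.isAlgebraic_adjoin (K := kd k π) (S := {T})
      (fun x hx => by
        rw [Set.mem_singleton_iff] at hx
        rw [hx]
        exact h2.isIntegral)
    exact h8
  exact IsAlgebraic.restrictScalars (kd k π) h5

/-- An equation in two variables. -/
theorem exists_eval₂ {π : Ω} {f : Ω} (hf : IsAlgebraic (kd k π) f) :
    ∃ Q : Polynomial (Polynomial k), Q ≠ 0 ∧
      Polynomial.eval₂ (Polynomial.aeval π : k[X] →ₐ[k] Ω).toRingHom f Q = 0 := by
  classical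
  obtain ⟨P, hP0, hP⟩ := hf
  -- common denominator
  have key : ∀ S : Finset ℕ, ∃ s : k[X], aeval π s ≠ 0 ∧
      ∀ i ∈ S, ∃ r : k[X], (P.coeff i : Ω) * aeval π s = aeval π r := by
    intro S
    induction S using Finset.induction_on with
    | empty => exact ⟨1, by rw [map_one]; exact one_ne_zero, fun i hi => absurd hi (Finset.notMem_empty i)⟩
    | insert a S ha ih =>
      obtain ⟨s, hs, hS⟩ := ih
      obtain ⟨r', s', hrs⟩ := (IntermediateField.mem_adjoin_simple_iff k _).1 (P.coeff a).2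
      by_cases hs' : aeval π s' = 0
      · refine ⟨s, hs, fun i hi => ?_⟩
        rcases Finset.mem_insert.1 hi with rfl | hi
        · refine ⟨0, ?_⟩
          rw [hrs, hs', div_zero, zero_mul, map_zero]
        · exact hS i hi
      · refine ⟨s * s', by rw [map_mul]; exact mul_ne_zero hs hs', fun i hi => ?_⟩
        rcases Finset.mem_insert.1 hi with rfl | hi
        · refine ⟨r' * s, ?_⟩
          rw [hrs, map_mul, map_mul]
          field_simp
        · obtain ⟨r, hr⟩ := hS i hi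
          refine ⟨r * s', ?_⟩
          rw [map_mul, map_mul, ← mul_assoc, hr]
  obtain ⟨s, hs, hS⟩ := key P.support
  choose! r hr using hS
  refine ⟨∑ i ∈ P.support, monomial i (r i), ?_, ?_⟩
  · intro h0
    obtain ⟨i, hi⟩ := support_nonempty.2 hP0
    have h1 := congrArg (fun Q : Polynomial (Polynomial k) => Q.coeff i) h0
    simp only [finsetSum_coeff, coeff_monomial, coeff_zero] at h1
    rw [Finset.sum_ite_eq' P.support i r, if_pos hi] at h1
    have h2 := hr i hi
    rw [h1, map_zero] at h2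
    rcases mul_eq_zero.1 h2 with h3 | h3
    · exact (mem_support_iff.1 hi) (Subtype.ext h3)
    · exact hs h3
  · rw [eval₂_finsetSum]
    have h1 : ∀ i ∈ P.support, Polynomial.eval₂ (Polynomial.aeval π : k[X] →ₐ[k] Ω).toRingHom f
        (monomial i (r i)) = aeval π s * ((P.coeff i : Ω) * f ^ i) := by
      intro i hi
      rw [eval₂_monomial]
      change aeval π (r i) * f ^ i = _
      rw [← hr i hi]
      ring
    rw [Finset.sum_congr rfl h1, ← Finset.mul_sum]
    have h2 : ∑ i ∈ P.support, (P.coeff i : Ω) * f ^ i = 0 := by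
      rw [aeval_def, eval₂_eq_sum, Polynomial.sum_def] at hP
      exact hP
    rw [h2, mul_zero]

end Pool.Agent.TWA
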