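import Pool.Agent.Lib.TWA.Arc

/-!
# TANK W, type II: the effect of the motions of the formal arc principle (note 3120, Theorem B)

`PO p v K`: the elements of `K ^ p + O(> 0)`.  If the polynomial `∑ a_J x^J` with coefficients in
`K` vanishes modulo `PO` on a non-constant arc over `k`, then there are points `X(δ)` with a pole, in
the `p ^ e`-th powers of the henselizations of `k(δ)`, at which it is in `K ^ p + O(> 0)`.
-/

set_option autoImplicit false

open Polynomial Filter Topology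

namespace Pool.Agent.TWA

open Pool.Agent.H15JM (RVal)
open Pool.Agent.LU1 (VPos)
open Pool.Agent.D2 (Ctx0)
open Pool.Agent.D2P (hen mem_hen)
open Pool.Agent.TWM (Gt)

universe u

variable {k Ω : Type u} [Field k] [Field Ω] [Algebra k Ω] {v : RVal Ω}

/-- The elements of `K ^ p + O(> 0)`. -/
def PO [IsAlgClosed k] (p : ℕ) [hp : Fact p.Prime] [CharP k p] [CharP Ω p] (h : Ctx0 k v)
    (K : IntermediateField k Ω) : Submodule k Ω where
  carrier := {x | ∃ g ∈ K, Gt v 0 (x - g ^ p)}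
  add_mem' := by
    rintro x y ⟨g, hg, hx⟩ ⟨g', hg', hy⟩
    refine ⟨g + g', add_mem hg hg', ?_⟩
    rw [add_pow_char, add_sub_add_comm]
    exact hx.add hy
  zero_mem' := ⟨0, zero_mem K, by
    rw [zero_pow hp.out.ne_zero, sub_zero]
    exact TWM.Gt.zero⟩
  smul_mem' := by
    rintro c x ⟨g, hg, hx⟩
    obtain ⟨b, rfl⟩ := IsAlgClosed.exists_pow_nat_eq c hp.out.pos
    refine ⟨algebraMap k Ω b * g, mul_mem (K.algebraMap_mem b) hg, ?_⟩
    rw [Algebra.smul_def, map_pow, mul_pow, ← mul_sub]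
    have h1 := hx.mul_ge (h.ge (b ^ p))
    rw [map_pow, add_zero, mul_comm] at h1
    exact h1

theorem mem_PO [IsAlgClosed k] {p : ℕ} [hp : Fact p.Prime] [CharP k p] [CharP Ω p] {h : Ctx0 k v}
    {K : IntermediateField k Ω} {x : Ω} : x ∈ PO p h K ↔ ∃ g ∈ K, Gt v 0 (x - g ^ p) := Iff.rfl

/-- Finitely many vectors modulo a subspace. -/
theorem exists_split {k V ι : Type*} [Field k] [AddCommGroup V] [Module k V] (W : Submodule k V)
    (J : Finset ι) (a : ι → V) : ∃ (r : ℕ) (b : Fin r → V) (α : Fin r → ι → k),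
      LinearIndependent k (fun t => W.mkQ (b t)) ∧ ∀ j ∈ J, a j - ∑ t, α t j • b t ∈ W := by
  classical
  obtain ⟨U, hU⟩ : ∃ U : Submodule k (V ⧸ W),
    U = Submodule.span k ((J.image fun j => W.mkQ (a j) : Finset (V ⧸ W)) : Set (V ⧸ W)) := ⟨_, rfl⟩
  have hfd : FiniteDimensional k U := by
    rw [hU]
    exact FiniteDimensional.span_finset k _
  let B := Module.finBasis k U
  choose b hb using fun t => W.mkQ_surjective ((B t : U) : V ⧸ W)
  have hmem : ∀ j ∈ J, W.mkQ (a j) ∈ U := fun j hj => by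
    rw [hU]
    exact Submodule.subset_span (Finset.mem_coe.2 (Finset.mem_image_of_mem _ hj))
  refine ⟨_, b, fun t j => if hj : j ∈ J then B.repr ⟨W.mkQ (a j), hmem j hj⟩ t else 0, ?_,
    fun j hj => ?_⟩
  · have h1 : (fun t => W.mkQ (b t)) = fun t => U.subtype (B t) := funext hb
    rw [h1]
    exact B.linearIndependent.map' U.subtype (Submodule.ker_subtype U)
  · refine (Submodule.Quotient.mk_eq_zero W).1 ?_
    change W.mkQ _ = 0
    rw [map_sub, map_sum, sub_eq_zero]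
    have h1 := congrArg U.subtype (B.sum_repr ⟨W.mkQ (a j), hmem j hj⟩)
    rw [map_sum] at h1
    refine h1.symm.trans (Finset.sum_congr rfl fun t _ => ?_)
    rw [map_smul, map_smul]
    beta_reduce
    rw [dif_pos hj, hb]
    rfl

/-- The monomial `x ^ J`. -/
def mo {N : ℕ} {A : Type*} [CommMonoid A] (x : Fin N → A) (j : Fin N →₀ ℕ) : A :=
  j.prod fun i e => x i ^ e

theorem aeval_sum_monomial {N : ℕ} {A : Type*} [CommRing A] [Algebra k A] (x : Fin N → A)
    (J : Finset (Fin N →₀ ℕ)) (α : (Fin N →₀ ℕ) → k) :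
    MvPolynomial.aeval x (∑ j ∈ J, MvPolynomial.monomial j (α j)) =
      ∑ j ∈ J, algebraMap k A (α j) * mo x j := by
  rw [map_sum]
  exact Finset.sum_congr rfl fun j _ => MvPolynomial.aeval_monomial _ _ _

theorem mo_mem {N : ℕ} {K : IntermediateField k Ω} {x : Fin N → Ω} (hx : ∀ i, x i ∈ K)
    (j : Fin N →₀ ℕ) : mo x j ∈ K :=
  prod_mem fun i _ => pow_mem (hx i) _

theorem mo_pow {N : ℕ} {A : Type*} [CommMonoid A] (x : Fin N → A) (j : Fin N →₀ ℕ) (n : ℕ) :
    mo (fun i => x i ^ n) j = mo x j ^ n := by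
  unfold mo
  rw [Finsupp.prod, Finsupp.prod, ← Finset.prod_pow]
  exact Finset.prod_congr rfl fun i _ => by rw [← pow_mul, ← pow_mul, mul_comm]

theorem ge_mo {N : ℕ} {C : ℝ} {x : Fin N → Ω} (hx : ∀ i, v.Ge (-C) (x i)) (j : Fin N →₀ ℕ) :
    v.Ge (-(((j.sum fun _ e => e : ℕ) : ℝ) * C)) (mo x j) := by
  have h1 : v.Ge (∑ i ∈ j.support, -((j i : ℝ) * C)) (mo x j) := by
    refine RVal.Ge.prod _ _ _ fun i _ => ?_
    have h2 : ∀ n : ℕ, v.Ge (-((n : ℝ) * C)) (x i ^ n) := by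
      intro n
      induction n with
      | zero =>
        rw [Nat.cast_zero, zero_mul, neg_zero, pow_zero]
        exact fun _ => by rw [v.map_one]
      | succ n ih =>
        rw [pow_succ]
        exact (ih.mul (hx i)).mono (by push_cast; linarith)
    exact h2 (j i)
  refine h1.mono (le_of_eq ?_)
  rw [Finset.sum_neg_distrib, ← Finset.sum_mul, Finsupp.sum]
  push_cast
  rfl

/-- **The effect.** -/
theorem effect [IsAlgClosed k] [IsAlgClosed Ω] (p : ℕ) [hp : Fact p.Prime] [CharP k p]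
    [CharP Ω p] (h : Ctx0 k v) (hv : ∃ T : Ω, T ≠ 0 ∧ 0 < v T) {K : IntermediateField k Ω}
    (hK : hen v K = K) {N : ℕ} (J : Finset (Fin N →₀ ℕ)) (a : (Fin N →₀ ℕ) → Ω)
    (c : Fin N → PowerSeries k) (hc : ∃ j, ∀ b : k, c j ≠ algebraMap k (PowerSeries k) b)
    (hF : ∀ n, ∑ j ∈ J, algebraMap k Ω (PowerSeries.coeff n (mo c j)) * a j ∈ PO p h K)
    {e : ℕ} (he : e ≠ 0) :
    ∃ (M : ℕ) (j₀ : Fin N) (b : k) (m : ℕ) (η : ℝ) (D : ℕ), b ≠ 0 ∧ 0 < m ∧ 0 < η ∧
      ∀ (δ : ℕ → Ω) (ρ : ℝ) (hsq : TW.WM13.Sq v δ ρ), 0 < ρ → (∀ i, 0 < v (δ i)) →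
        (∀ i, δ i ∈ K) → ∃ Y : ℕ → Fin N → Ω, (∀ i j, Y i j ∈ hen v (kd k (δ i))) ∧
          (∀ i j, Y i j ∈ K) ∧ (∀ j, TW.WM13.FGS hsq fun i => Y i j) ∧
          (∀ i j, v.Ge (-(M * v (δ i))) (Y i j ^ p ^ e)) ∧
          (∀ j, TW.WM13.GS hsq fun i => δ i ^ M * Y i j ^ p ^ e) ∧
          TW.WM13.LTs v δ (fun i => Y i j₀ ^ p ^ e) (algebraMap k Ω b) (-m) ∧
          ∃ G : ℕ → Ω, (∀ i, G i ∈ K) ∧ TW.WM13.FGS hsq G ∧ ∀ i, v.Ge (η - D * v (δ i))
            (∑ j ∈ J, a j * mo (fun l => Y i l ^ p ^ e) j - G i ^ p) := by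
  classical
  obtain ⟨r, w, α, hli, hα⟩ := exists_split (PO p h K) J a
  obtain ⟨S, hS⟩ : ∃ S : Set (MvPolynomial (Fin N) k),
    S = Set.range fun t : Fin r => ∑ j ∈ J, MvPolynomial.monomial j (α t j) := ⟨_, rfl⟩
  -- the arc satisfies the equations
  have hSc : ∀ P ∈ S, MvPolynomial.aeval c P = 0 := by
    intro P hP
    rw [hS] at hP
    obtain ⟨t, rfl⟩ := hP
    rw [aeval_sum_monomial]
    refine PowerSeries.ext fun n => ?_
    rw [map_zero, map_sum]
    have h1 : ∀ j, PowerSeries.coeff n (algebraMap k (PowerSeries k) (α t j) * mo c j) =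
        α t j * PowerSeries.coeff n (mo c j) := fun j => by
      rw [← Algebra.smul_def, PowerSeries.coeff_smul, smul_eq_mul]
    simp only [h1]
    have h2 : ∑ t, (∑ j ∈ J, α t j * PowerSeries.coeff n (mo c j)) • (PO p h K).mkQ (w t) = 0 := by
      have h3 : (PO p h K).mkQ (∑ j ∈ J, algebraMap k Ω (PowerSeries.coeff n (mo c j)) * a j) = 0 := by
        rw [← LinearMap.mem_ker, Submodule.ker_mkQ]
        exact hF n
      rw [← h3, map_sum]
      simp only [Finset.sum_smul]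
      rw [Finset.sum_comm]
      refine Finset.sum_congr rfl fun j hj => ?_
      have h4 : (PO p h K).mkQ (a j) = ∑ t, α t j • (PO p h K).mkQ (w t) := by
        have h5 := hα j hj
        rw [← Submodule.ker_mkQ (PO p h K), LinearMap.mem_ker, map_sub, sub_eq_zero, map_sum] at h5
        rw [h5]
        exact Finset.sum_congr rfl fun t _ => map_smul _ _ _
      rw [← Algebra.smul_def, map_smul, h4, Finset.smul_sum]
      refine Finset.sum_congr rfl fun t _ => ?_
      rw [smul_smul, mul_comm]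
    exact Fintype.linearIndependent_iff.1 hli _ h2 t
  obtain ⟨M, j₀, b, m, hb, hm, harc⟩ := arc p h hv hSc hc e
  -- the remainders
  choose! g hgK hg using hα
  obtain ⟨rem, hrem⟩ : ∃ rem : (Fin N →₀ ℕ) → Ω, ∀ j, rem j = a j - ∑ t, α t j • w t - g j ^ p :=
    ⟨_, fun _ => rfl⟩
  obtain ⟨η, hη0, hη⟩ : ∃ η : ℝ, 0 < η ∧ ∀ j ∈ J, v.Ge η (rem j) := by
    have key : ∀ J' : Finset (Fin N →₀ ℕ), J' ⊆ J → ∃ η : ℝ, 0 < η ∧ ∀ j ∈ J', v.Ge η (rem j) := by
      intro J'
      induction J' using Finset.induction_on with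
      | empty => exact fun _ => ⟨1, one_pos, fun j hj => absurd hj (Finset.notMem_empty j)⟩
      | insert j J' hj ih =>
        intro hsub
        obtain ⟨η, h1, h2⟩ := ih ((Finset.subset_insert j J').trans hsub)
        have h3 : Gt v 0 (rem j) := by
          rw [hrem]
          exact hg j (hsub (Finset.mem_insert_self j J'))
        by_cases h4 : rem j = 0
        · refine ⟨η, h1, fun l hl => ?_⟩
          rcases Finset.mem_insert.1 hl with rfl | hl
          · rw [h4]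
            exact RVal.Ge.zero
          · exact h2 l hl
        · refine ⟨min η (v (rem j)), lt_min h1 (h3 h4), fun l hl => ?_⟩
          rcases Finset.mem_insert.1 hl with rfl | hl
          · exact fun _ => min_le_right _ _
          · exact (h2 l hl).mono (min_le_left _ _)
    exact key J (Finset.Subset.refl J)
  obtain ⟨D, hD⟩ : ∃ D : ℕ, ∀ j ∈ J, (j.sum fun _ e => e) ≤ D :=
    ⟨∑ j ∈ J, j.sum fun _ e => e, fun j hj =>
      Finset.single_le_sum (f := fun j : Fin N →₀ ℕ => j.sum fun _ e => e)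
        (fun _ _ => Nat.zero_le _) hj⟩
  refine ⟨M, j₀, b, m, η, D * M, hb, hm, hη0, fun δ ρ hsq hρ hδ hδK => ?_⟩
  obtain ⟨Y, hY1, hY6, hY2, hY3, hY4, hY5⟩ := harc δ ρ hsq hρ hδ
  have hYK : ∀ i j, Y i j ∈ K := fun i j => D2P.hen_le hK (by
    rw [IntermediateField.adjoin_le_iff, Set.singleton_subset_iff]
    exact hδK i) (hY1 i j)
  obtain ⟨e, rfl⟩ := Nat.exists_eq_succ_of_ne_zero he
  refine ⟨Y, hY1, hYK, hY6, hY3, hY4, hY5,
    fun i => ∑ j ∈ J, g j * mo (fun l => Y i l ^ p ^ e) j, fun i => sum_mem fun j hj =>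
    mul_mem (hgK j hj) (mo_mem (fun l => pow_mem (hYK i l) _) j),
    TW.WM13.FGS.sum _ fun j _ => (TW.WM13.FGS.const hsq (g j)).mul
      (TW.WM13.FGS.prod _ fun l _ => ((hY6 l).pow _).pow _), fun i => ?_⟩
  have hpow : ∀ l, Y i l ^ p ^ (e + 1) = (Y i l ^ p ^ e) ^ p := fun l => by
    rw [← pow_mul, ← pow_succ]
  have h1 : ∑ j ∈ J, a j * mo (fun l => Y i l ^ p ^ (e + 1)) j -
      (∑ j ∈ J, g j * mo (fun l => Y i l ^ p ^ e) j) ^ p =
      ∑ j ∈ J, rem j * mo (fun l => Y i l ^ p ^ (e + 1)) j := by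
    have h2 : ∑ j ∈ J, (∑ t, α t j • w t) * mo (fun l => Y i l ^ p ^ (e + 1)) j = 0 := by
      simp only [Finset.sum_mul]
      rw [Finset.sum_comm]
      refine Finset.sum_eq_zero fun t _ => ?_
      have h3 := hY2 i _ (by rw [hS]; exact ⟨t, rfl⟩ :
        (∑ j ∈ J, MvPolynomial.monomial j (α t j)) ∈ S)
      rw [aeval_sum_monomial] at h3
      have h4 : ∑ j ∈ J, α t j • w t * mo (fun l => Y i l ^ p ^ (e + 1)) j =
          w t * ∑ j ∈ J, algebraMap k Ω (α t j) * mo (fun l => Y i l ^ p ^ (e + 1)) j := by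
        rw [Finset.mul_sum]
        refine Finset.sum_congr rfl fun j _ => ?_
        rw [Algebra.smul_def]
        ring
      rw [h4, h3, mul_zero]
    have h5 : ∑ j ∈ J, a j * mo (fun l => Y i l ^ p ^ (e + 1)) j -
        ∑ j ∈ J, (g j * mo (fun l => Y i l ^ p ^ e) j) ^ p -
        ∑ j ∈ J, rem j * mo (fun l => Y i l ^ p ^ (e + 1)) j =
        ∑ j ∈ J, (∑ t, α t j • w t) * mo (fun l => Y i l ^ p ^ (e + 1)) j := by
      rw [← Finset.sum_sub_distrib, ← Finset.sum_sub_distrib]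
      refine Finset.sum_congr rfl fun j _ => ?_
      rw [hrem, mul_pow, ← mo_pow]
      simp only [hpow]
      ring
    rw [sum_pow_char]
    linear_combination h5 + h2
  rw [h1]
  refine RVal.Ge.sum _ _ fun j hj => ?_
  have h2 := ge_mo (hY3 i) j
  refine ((hη j hj).mul h2).mono ?_
  have h3 : (((j.sum fun _ e => e : ℕ) : ℝ)) ≤ D := by exact_mod_cast hD j hj
  have h4 : (0 : ℝ) ≤ M * v (δ i) := mul_nonneg (Nat.cast_nonneg _) (hδ i).le
  have h5 := mul_le_mul_of_nonneg_right h3 h4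
  have h6 : ((D * M : ℕ) : ℝ) * v (δ i) = D * (M * v (δ i)) := by
    rw [Nat.cast_mul]
    ring
  rw [h6]
  linarith

end Pool.Agent.TWA
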