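import Pool.Agent.Lib.TWW.WM14
import Mathlib.RingTheory.PowerSeries.Basic
import Mathlib.RingTheory.PowerSeries.Trunc

/-!
# TANK W, type II (note 3120, Theorem B): values of power series at elements of positive value

`Ev v δ F x`: the power series `F` over the coefficient field has the value `x` at `δ`.
* `Ev.add`, `Ev.mul`, `Ev.poly`, `Ev.unique`, `Ev.eq_of`: the series with a value at `δ` form a ring
  isomorphic to the ring of the values;
* `exists_ev`: a power series which is algebraic over `k(t)` has a value at every `δ` of positive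
  value (`Ω` is algebraically closed).
-/

set_option autoImplicit false

open Polynomial Filter

namespace Pool.Agent.TWA

open Pool.Agent.H15JM (RVal)
open Pool.Agent.LU1 (VPos)
open Pool.Agent.LUC (Cl)
open Pool.Agent.D2 (Ctx0)

universe u

variable {k Ω : Type u} [Field k] [Field Ω] [Algebra k Ω] {v : RVal Ω}

/-- `x` is the value of the power series `F` at `δ`. -/
def Ev (v : RVal Ω) (δ : Ω) (F : PowerSeries k) (x : Ω) : Prop :=
  ∀ n : ℕ, v.Ge (n * v δ) (x - aeval δ (PowerSeries.trunc n F))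

variable {δ : Ω}

theorem ge_aeval (h : Ctx0 k v) (hδ : 0 < v δ) (P : k[X]) : v.Ge 0 (aeval δ P) := by
  rw [aeval_eq_sum_range]
  refine RVal.Ge.sum _ _ fun i _ => ?_
  rw [Algebra.smul_def]
  have h1 : v.Ge 0 (δ ^ i) := by
    intro h0
    rcases eq_or_ne δ 0 with hd | hd
    · rcases i with _ | i
      · rw [pow_zero, v.map_one]
      · exact absurd (by rw [hd, zero_pow (Nat.succ_ne_zero i)]) h0
    · rw [v.map_pow hd]
      exact mul_nonneg (Nat.cast_nonneg i) hδ.le
  have h2 := (h.ge (P.coeff i)).mul h1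
  rwa [add_zero] at h2

theorem ge_aeval_of_coeff (h : Ctx0 k v) (hδ : 0 < v δ) {n : ℕ} {P : k[X]}
    (hP : ∀ i < n, P.coeff i = 0) : v.Ge (n * v δ) (aeval δ P) := by
  obtain ⟨Q, rfl⟩ := X_pow_dvd_iff.2 hP
  rw [map_mul, map_pow, aeval_X]
  have h1 : v.Ge (n * v δ) (δ ^ n) := by
    intro h0
    rcases eq_or_ne δ 0 with hd | hd
    · rcases n with _ | n
      · rw [pow_zero, v.map_one, Nat.cast_zero, zero_mul]
      · exact absurd (by rw [hd, zero_pow (Nat.succ_ne_zero n)]) h0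
    · rw [v.map_pow hd]
  have h2 := h1.mul (ge_aeval h hδ Q)
  rwa [add_zero] at h2

/-- The first nonzero coefficient gives the value. -/
theorem val_aeval (h : Ctx0 k v) (hδ0 : δ ≠ 0) (hδ : 0 < v δ) {m : ℕ} {P : k[X]}
    (hP : ∀ i < m, P.coeff i = 0) (hm : P.coeff m ≠ 0) :
    aeval δ P ≠ 0 ∧ v (aeval δ P) = m * v δ ∧
      v.Ge ((m + 1 : ℕ) * v δ) (aeval δ P - algebraMap k Ω (P.coeff m) * δ ^ m) := by
  have h1 : v.Ge ((m + 1 : ℕ) * v δ) (aeval δ P - algebraMap k Ω (P.coeff m) * δ ^ m) := by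
    have h2 : aeval δ P - algebraMap k Ω (P.coeff m) * δ ^ m =
        aeval δ (P - C (P.coeff m) * X ^ m) := by
      rw [map_sub, map_mul, map_pow, aeval_X, aeval_C]
    rw [h2]
    refine ge_aeval_of_coeff h hδ fun i hi => ?_
    rw [coeff_sub, coeff_C_mul, coeff_X_pow]
    rcases Nat.lt_succ_iff_lt_or_eq.1 hi with h3 | h3
    · rw [hP i h3, if_neg (by omega), mul_zero, sub_zero]
    · rw [h3, if_pos rfl, mul_one, sub_self]
  have hc0 : algebraMap k Ω (P.coeff m) ≠ 0 := by
    rw [Ne, map_eq_zero]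
    exact hm
  have h0 : algebraMap k Ω (P.coeff m) * δ ^ m ≠ 0 := mul_ne_zero hc0 (pow_ne_zero _ hδ0)
  have hv : v (algebraMap k Ω (P.coeff m) * δ ^ m) = m * v δ := by
    rw [v.map_mul hc0 (pow_ne_zero _ hδ0), h.triv _ hm, v.map_pow hδ0, zero_add]
  have h3 : TWM.Gt v (v (algebraMap k Ω (P.coeff m) * δ ^ m))
      (algebraMap k Ω (P.coeff m) * δ ^ m - aeval δ P) := by
    have h4 : TWM.Gt v (m * v δ) (aeval δ P - algebraMap k Ω (P.coeff m) * δ ^ m) :=
      TWM.Gt.of_ge h1 (by push_cast; linarith)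
    rw [hv]
    exact h4.sub_comm'
  have h5 := TWM.Gt.val_eq h0 h3
  exact ⟨h5.1, h5.2.trans hv, h1⟩

theorem aeval_ne_zero (h : Ctx0 k v) (hδ0 : δ ≠ 0) (hδ : 0 < v δ) {P : k[X]} (hP : P ≠ 0) :
    aeval δ P ≠ 0 := by
  refine (val_aeval h hδ0 hδ (m := P.natTrailingDegree) (fun i hi => ?_) ?_).1
  · exact coeff_eq_zero_of_lt_natTrailingDegree hi
  · rw [← trailingCoeff]
    exact mt trailingCoeff_eq_zero.1 hP

/-- It suffices to have polynomials with the right coefficients. -/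
theorem Ev.of (h : Ctx0 k v) (hδ : 0 < v δ) {F : PowerSeries k} {x : Ω}
    (hF : ∀ n : ℕ, ∃ P : k[X], (∀ i < n, P.coeff i = PowerSeries.coeff i F) ∧
      v.Ge (n * v δ) (x - aeval δ P)) : Ev v δ F x := by
  intro n
  obtain ⟨P, h1, h2⟩ := hF n
  have h3 : v.Ge (n * v δ) (aeval δ (P - PowerSeries.trunc n F)) := by
    refine ge_aeval_of_coeff h hδ fun i hi => ?_
    rw [coeff_sub, h1 i hi, PowerSeries.coeff_trunc, if_pos hi, sub_self]
  have h4 := h2.add h3
  rwa [map_sub, sub_add_sub_cancel] at h4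

theorem coeff_trunc_lt {F : PowerSeries k} {n i : ℕ} (hi : i < n) :
    (PowerSeries.trunc n F).coeff i = PowerSeries.coeff i F := by
  rw [PowerSeries.coeff_trunc, if_pos hi]

theorem Ev.ge {F : PowerSeries k} {x : Ω} (hx : Ev v δ F x) : v.Ge 0 x := by
  have h1 := hx 0
  rw [Nat.cast_zero, zero_mul, PowerSeries.trunc_zero'] at h1
  simpa using h1

theorem Ev.add (h : Ctx0 k v) (hδ : 0 < v δ) {F G : PowerSeries k} {x y : Ω} (hx : Ev v δ F x)
    (hy : Ev v δ G y) : Ev v δ (F + G) (x + y) := by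
  refine Ev.of h hδ fun n => ⟨PowerSeries.trunc n F + PowerSeries.trunc n G, fun i hi => ?_, ?_⟩
  · rw [coeff_add, coeff_trunc_lt hi, coeff_trunc_lt hi, map_add]
  · rw [map_add, add_sub_add_comm]
    exact (hx n).add (hy n)

theorem Ev.mul (h : Ctx0 k v) (hδ : 0 < v δ) {F G : PowerSeries k} {x y : Ω} (hx : Ev v δ F x)
    (hy : Ev v δ G y) : Ev v δ (F * G) (x * y) := by
  refine Ev.of h hδ fun n => ⟨PowerSeries.trunc n F * PowerSeries.trunc n G, fun i hi => ?_, ?_⟩
  · rw [coeff_mul, PowerSeries.coeff_mul]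
    refine Finset.sum_congr rfl fun ab hab => ?_
    have h1 := Finset.HasAntidiagonal.mem_antidiagonal.1 hab
    rw [coeff_trunc_lt (by omega), coeff_trunc_lt (by omega)]
  · have e : x * y - aeval δ (PowerSeries.trunc n F * PowerSeries.trunc n G) =
        (x - aeval δ (PowerSeries.trunc n F)) * y +
          aeval δ (PowerSeries.trunc n F) * (y - aeval δ (PowerSeries.trunc n G)) := by
      rw [map_mul]
      ring
    rw [e]
    have h1 := (hx n).mul hy.ge
    have h2 := (ge_aeval h hδ (PowerSeries.trunc n F)).mul (hy n)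
    rw [add_zero] at h1
    rw [zero_add] at h2
    exact h1.add h2

theorem Ev.poly (h : Ctx0 k v) (hδ : 0 < v δ) (P : k[X]) :
    Ev v δ (P : PowerSeries k) (aeval δ P) := by
  refine Ev.of h hδ fun n => ⟨P, fun i _ => ?_, ?_⟩
  · rw [Polynomial.coeff_coe]
  · rw [sub_self]
    exact RVal.Ge.zero

theorem Ev.const (h : Ctx0 k v) (hδ : 0 < v δ) (c : k) :
    Ev v δ (algebraMap k (PowerSeries k) c) (algebraMap k Ω c) := by
  have h1 := Ev.poly h hδ (C c)
  rw [aeval_C] at h1
  have e : ((C c : k[X]) : PowerSeries k) = algebraMap k (PowerSeries k) c := by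
    rw [Polynomial.coe_C]
    rfl
  rwa [e] at h1

theorem Ev.var (h : Ctx0 k v) (hδ : 0 < v δ) : Ev v δ (PowerSeries.X : PowerSeries k) δ := by
  have h1 := Ev.poly h hδ (X : k[X])
  rwa [aeval_X, Polynomial.coe_X] at h1

theorem Ev.zero (h : Ctx0 k v) (hδ : 0 < v δ) : Ev v δ (0 : PowerSeries k) (0 : Ω) := by
  have h1 := Ev.poly h hδ (0 : k[X])
  rwa [map_zero, Polynomial.coe_zero] at h1

theorem Ev.one (h : Ctx0 k v) (hδ : 0 < v δ) : Ev v δ (1 : PowerSeries k) (1 : Ω) := by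
  have h1 := Ev.poly h hδ (1 : k[X])
  rwa [map_one, Polynomial.coe_one] at h1

theorem Ev.pow (h : Ctx0 k v) (hδ : 0 < v δ) {F : PowerSeries k} {x : Ω} (hx : Ev v δ F x)
    (n : ℕ) : Ev v δ (F ^ n) (x ^ n) := by
  induction n with
  | zero =>
    rw [pow_zero, pow_zero]
    exact Ev.one h hδ
  | succ n ih =>
    rw [pow_succ, pow_succ]
    exact ih.mul h hδ hx

theorem Ev.neg (h : Ctx0 k v) (hδ : 0 < v δ) {F : PowerSeries k} {x : Ω} (hx : Ev v δ F x) :
    Ev v δ (-F) (-x) := by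
  have h1 := (Ev.const h hδ (-1 : k)).mul h hδ hx
  rw [map_neg, map_one, map_neg, map_one, neg_one_mul, neg_one_mul] at h1
  exact h1

theorem Ev.sub (h : Ctx0 k v) (hδ : 0 < v δ) {F G : PowerSeries k} {x y : Ω} (hx : Ev v δ F x)
    (hy : Ev v δ G y) : Ev v δ (F - G) (x - y) := by
  rw [sub_eq_add_neg, sub_eq_add_neg]
  exact hx.add h hδ (hy.neg h hδ)

/-- The value of a nonzero series. -/
theorem Ev.val (h : Ctx0 k v) (hδ0 : δ ≠ 0) (hδ : 0 < v δ) {F : PowerSeries k} {x : Ω}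
    (hx : Ev v δ F x) {m : ℕ} (hF : ∀ i < m, PowerSeries.coeff i F = 0)
    (hm : PowerSeries.coeff m F ≠ 0) :
    x ≠ 0 ∧ v x = m * v δ ∧
      v.Ge ((m + 1 : ℕ) * v δ) (x - algebraMap k Ω (PowerSeries.coeff m F) * δ ^ m) := by
  have h1 := val_aeval (P := PowerSeries.trunc (m + 1) F) h hδ0 hδ (m := m)
    (fun i hi => by rw [coeff_trunc_lt (by omega), hF i hi])
    (by rw [coeff_trunc_lt (Nat.lt_succ_self m)]; exact hm)
  rw [coeff_trunc_lt (Nat.lt_succ_self m)] at h1
  have h2 := hx (m + 1)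
  have h3 : TWM.Gt v (v (aeval δ (PowerSeries.trunc (m + 1) F)))
      (aeval δ (PowerSeries.trunc (m + 1) F) - x) := by
    rw [h1.2.1]
    have h4 : TWM.Gt v (m * v δ) (x - aeval δ (PowerSeries.trunc (m + 1) F)) :=
      TWM.Gt.of_ge h2 (by push_cast; linarith)
    exact h4.sub_comm'
  have h5 := TWM.Gt.val_eq h1.1 h3
  refine ⟨h5.1, h5.2.trans h1.2.1, ?_⟩
  have h6 := h2.add h1.2.2
  rwa [sub_add_sub_cancel] at h6

theorem exists_coeff {F : PowerSeries k} (hF : F ≠ 0) :
    ∃ m : ℕ, (∀ i < m, PowerSeries.coeff i F = 0) ∧ PowerSeries.coeff m F ≠ 0 := by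
  classical
  have h1 : ∃ m : ℕ, PowerSeries.coeff m F ≠ 0 := by
    by_contra hcon
    push Not at hcon
    exact hF (PowerSeries.ext fun n => by rw [hcon n, map_zero])
  refine ⟨Nat.find h1, fun i hi => ?_, Nat.find_spec h1⟩
  have h2 := Nat.find_min h1 hi
  push Not at h2
  exact h2

/-- A series with value zero is zero. -/
theorem Ev.eq_zero (h : Ctx0 k v) (hδ0 : δ ≠ 0) (hδ : 0 < v δ) {F : PowerSeries k}
    (hx : Ev v δ F (0 : Ω)) : F = 0 := by
  by_contra hF
  obtain ⟨m, h1, h2⟩ := exists_coeff hF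
  exact (hx.val h hδ0 hδ h1 h2).1 rfl

theorem Ev.zero_eq (hδ : 0 < v δ) {x : Ω} (hx : Ev v δ (0 : PowerSeries k) x) : x = 0 := by
  by_contra h0
  obtain ⟨n, hn⟩ := exists_nat_gt (v x / v δ)
  have h1 := hx n
  rw [map_zero, map_zero, sub_zero] at h1
  have h2 := h1 h0
  rw [div_lt_iff₀ hδ] at hn
  linarith

theorem Ev.unique (h : Ctx0 k v) (hδ : 0 < v δ) {F : PowerSeries k} {x y : Ω}
    (hx : Ev v δ F x) (hy : Ev v δ F y) : x = y := by
  have h1 := hx.sub h hδ hy
  rw [sub_self] at h1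
  exact sub_eq_zero.1 (h1.zero_eq hδ)

theorem Ev.aeval (h : Ctx0 k v) (hδ : 0 < v δ) {σ : Type*} {G : σ → PowerSeries k} {z : σ → Ω}
    (hG : ∀ j, Ev v δ (G j) (z j)) (P : MvPolynomial σ k) :
    Ev v δ (MvPolynomial.aeval G P) (MvPolynomial.aeval z P) := by
  induction P using MvPolynomial.induction_on with
  | C c =>
    rw [MvPolynomial.aeval_C, MvPolynomial.aeval_C]
    exact Ev.const h hδ c
  | add P Q hP hQ =>
    rw [map_add, map_add]
    exact hP.add h hδ hQ
  | mul_X P j hP =>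
    rw [map_mul, map_mul, MvPolynomial.aeval_X, MvPolynomial.aeval_X]
    exact hP.mul h hδ (hG j)

/-- The evaluation of polynomials in two variables. -/
theorem Ev.eval₂ (h : Ctx0 k v) (hδ : 0 < v δ) {G : PowerSeries k} {z : Ω} (hG : Ev v δ G z)
    (Q : Polynomial (Polynomial k)) :
    Ev v δ (Polynomial.eval₂ Polynomial.coeToPowerSeries.ringHom G Q)
      (Polynomial.eval₂ (Polynomial.aeval δ : k[X] →ₐ[k] Ω).toRingHom z Q) := by
  induction Q using Polynomial.induction_on' with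
  | add P Q hP hQ =>
    rw [Polynomial.eval₂_add, Polynomial.eval₂_add]
    exact hP.add h hδ hQ
  | monomial n a =>
    rw [Polynomial.eval₂_monomial, Polynomial.eval₂_monomial]
    exact (Ev.poly h hδ a).mul h hδ (hG.pow h hδ n)

/-- One of the factors of a product of large value has large value. -/
theorem exists_factor (s : Multiset Ω) (hs : s ≠ 0) {c : ℝ} (hc : v.Ge (s.card * c) s.prod) :
    ∃ a ∈ s, v.Ge c a := by
  by_contra hcon
  push Not at hcon
  have h1 : ∀ a ∈ s, a ≠ 0 ∧ v a < c := by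
    intro a ha
    have h2 := hcon a ha
    unfold RVal.Ge at h2
    push Not at h2
    exact h2
  have key : ∀ t : Multiset Ω, (∀ a ∈ t, a ≠ 0 ∧ v a < c) → t.prod ≠ 0 ∧
      v t.prod ≤ t.card * c ∧ (t ≠ 0 → v t.prod < t.card * c) := by
    intro t
    induction t using Multiset.induction_on with
    | empty =>
      intro _
      simp [v.map_one]
    | cons a t ih =>
      intro ht
      obtain ⟨h3, h4, -⟩ := ih fun b hb => ht b (Multiset.mem_cons_of_mem hb)
      obtain ⟨h5, h6⟩ := ht a (Multiset.mem_cons_self a t)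
      rw [Multiset.prod_cons, Multiset.card_cons, v.map_mul h5 h3]
      push_cast
      exact ⟨mul_ne_zero h5 h3, by linarith, fun _ => by linarith⟩
  obtain ⟨h3, -, h4⟩ := key s h1
  exact absurd (hc h3) (not_le.2 (h4 hs))

/-- **A power series which is algebraic over `k(t)` has a value at `δ`.** -/
theorem exists_ev [IsAlgClosed Ω] (h : Ctx0 k v) (hδ0 : δ ≠ 0) (hδ : 0 < v δ)
    {G : PowerSeries k} {Q : Polynomial (Polynomial k)} (hQ : Q ≠ 0)
    (hG : Polynomial.eval₂ Polynomial.coeToPowerSeries.ringHom G Q = 0) :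
    ∃ z : Ω, Ev v δ G z := by
  classical
  obtain ⟨φ, hφ⟩ : ∃ φ : k[X] →+* Ω, φ = (Polynomial.aeval δ : k[X] →ₐ[k] Ω).toRingHom := ⟨_, rfl⟩
  have hφa : ∀ P, φ P = Polynomial.aeval δ P := fun P => by rw [hφ]; rfl
  have hinj : Function.Injective φ := by
    rw [injective_iff_map_eq_zero]
    intro P hP
    by_contra h0
    exact aeval_ne_zero h hδ0 hδ h0 (by rw [← hφa, hP])
  obtain ⟨q, hq⟩ : ∃ q : Polynomial Ω, q = Q.map φ := ⟨_, rfl⟩
  have hq0 : q ≠ 0 := by
    rw [hq]
    exact (Polynomial.map_ne_zero_iff hinj).2 hQ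
  obtain ⟨a, ha⟩ : ∃ a : ℕ → Ω, ∀ n, a n = Polynomial.aeval δ (PowerSeries.trunc n G) :=
    ⟨_, fun _ => rfl⟩
  have hlc : q.leadingCoeff ≠ 0 := leadingCoeff_ne_zero.2 hq0
  -- the values of `q` at the truncations
  have hval : ∀ n : ℕ, v.Ge (n * v δ) (q.eval (a n)) := by
    intro n
    have h1 : q.eval (a n) = Polynomial.aeval δ (Q.eval (PowerSeries.trunc n G)) := by
      rw [hq, ha, ← hφa, ← hφa, Polynomial.eval_map_apply]
    rw [h1]
    refine ge_aeval_of_coeff h hδ fun i hi => ?_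
    have h2 : PowerSeries.X ^ n ∣ ((Q.eval (PowerSeries.trunc n G) : k[X]) : PowerSeries k) := by
      have h3 : ((PowerSeries.trunc n G : k[X]) : PowerSeries k) - G ∣
          (Q.map Polynomial.coeToPowerSeries.ringHom).eval
            ((PowerSeries.trunc n G : k[X]) : PowerSeries k) -
          (Q.map Polynomial.coeToPowerSeries.ringHom).eval G := Polynomial.sub_dvd_eval_sub _ _ _
      rw [Polynomial.eval_map _ G, hG, sub_zero] at h3
      have h4 : (Q.map Polynomial.coeToPowerSeries.ringHom).eval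
          ((PowerSeries.trunc n G : k[X]) : PowerSeries k) =
          ((Q.eval (PowerSeries.trunc n G) : k[X]) : PowerSeries k) :=
        Polynomial.eval_map_apply Polynomial.coeToPowerSeries.ringHom _
      rw [h4] at h3
      refine dvd_trans ?_ h3
      rw [PowerSeries.X_pow_dvd_iff]
      intro m hm
      rw [map_sub, Polynomial.coeff_coe, coeff_trunc_lt hm, sub_self]
    have h5 := PowerSeries.X_pow_dvd_iff.1 h2 i hi
    rwa [Polynomial.coeff_coe] at h5
  have hprod : ∀ x, q.eval x = q.leadingCoeff * (q.roots.map fun θ => x - θ).prod := by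
    intro x
    have h1 := (IsAlgClosed.splits q).eq_prod_roots
    conv_lhs => rw [h1]
    rw [eval_mul, eval_C, eval_multiset_prod, Multiset.map_map]
    congr 2
    refine Multiset.map_congr rfl fun θ _ => ?_
    simp
  -- there are roots
  have hroots : q.roots ≠ 0 := by
    intro h0
    obtain ⟨n, hn⟩ := exists_nat_gt (v q.leadingCoeff / v δ)
    rw [div_lt_iff₀ hδ] at hn
    have h1 := hval n
    rw [hprod, h0, Multiset.map_zero, Multiset.prod_zero, mul_one] at h1
    have := h1 hlc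
    linarith
  have hcard : 0 < q.roots.card := Multiset.card_pos.2 hroots
  -- near roots
  have hnear : ∀ n : ℕ, ∃ θ ∈ q.roots.toFinset,
      v.Ge ((n * v δ - v q.leadingCoeff) / q.roots.card) (a n - θ) := by
    intro n
    have h1 := hval n
    rw [hprod] at h1
    have h2 : v.Ge (n * v δ - v q.leadingCoeff) (q.roots.map fun θ => a n - θ).prod := by
      intro h0
      have h3 := h1 (mul_ne_zero hlc h0)
      rw [v.map_mul hlc h0] at h3
      linarith
    obtain ⟨b, hb, hb'⟩ := exists_factor (v := v) (q.roots.map fun θ => a n - θ)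
      (by rw [Ne, Multiset.map_eq_zero]; exact hroots)
      (c := (n * v δ - v q.leadingCoeff) / q.roots.card) (by
        rw [Multiset.card_map, mul_div_cancel₀ _ (by exact_mod_cast hcard.ne')]
        exact h2)
    obtain ⟨θ, hθ, rfl⟩ := Multiset.mem_map.1 hb
    exact ⟨θ, Multiset.mem_toFinset.2 hθ, hb'⟩
  obtain ⟨θ, hθ, hfreq⟩ : ∃ θ ∈ q.roots.toFinset, ∃ᶠ n : ℕ in atTop,
      v.Ge ((n * v δ - v q.leadingCoeff) / q.roots.card) (a n - θ) := by
    by_contra hcon
    push Not at hcon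
    have h1 : ∀ᶠ n : ℕ in atTop, ∀ θ ∈ q.roots.toFinset,
        ¬ v.Ge ((n * v δ - v q.leadingCoeff) / q.roots.card) (a n - θ) := by
      rw [Filter.eventually_all_finset]
      intro θ hθ
      exact hcon θ hθ
    obtain ⟨n, hn⟩ := h1.exists
    obtain ⟨θ, hθ, hθ'⟩ := hnear n
    exact hn θ hθ hθ'
  refine ⟨θ, fun m => ?_⟩
  have h1 : ∀ᶠ n : ℕ in atTop, (m * v δ : ℝ) ≤ (n * v δ - v q.leadingCoeff) / q.roots.card := by
    obtain ⟨N, hN⟩ := exists_nat_gt ((m * v δ * q.roots.card + v q.leadingCoeff) / v δ)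
    rw [div_lt_iff₀ hδ] at hN
    filter_upwards [eventually_ge_atTop N] with n hn
    rw [le_div_iff₀ (by exact_mod_cast hcard)]
    have h2 : (N : ℝ) * v δ ≤ n * v δ :=
      mul_le_mul_of_nonneg_right (by exact_mod_cast hn) hδ.le
    linarith
  obtain ⟨n, hn1, hn2, hn3⟩ := (hfreq.and_eventually (h1.and (eventually_ge_atTop m))).exists
  have h3 : v.Ge (m * v δ) (a n - θ) := hn1.mono hn2
  have h4 : v.Ge (m * v δ) (a n - Polynomial.aeval δ (PowerSeries.trunc m G)) := by
    rw [ha, ← map_sub]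
    refine ge_aeval_of_coeff h hδ fun i hi => ?_
    rw [coeff_sub, coeff_trunc_lt (lt_of_lt_of_le hi hn3), coeff_trunc_lt hi, sub_self]
  have h5 := h4.sub h3
  rwa [sub_sub_sub_cancel_left] at h5

end Pool.Agent.TWA
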