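import Pool.Agent.Lib.TWA.Ev
import Pool.Agent.Lib.D2P.R0
import Pool.Agent.Lib.JM_H15.Frame

/-!
# TANK W, type II (note 3120, Theorem B): the values of algebraic power series at `δ` are in the
henselization of `k(δ)`

The point is the separability: `1, δ, …, δ^(p-1)` is a basis of `k(δ)` over `k(δ)^p`, and the values
of `p`-th powers of elements of the closure of `k(δ)` are divisible by `p`.
-/

set_option autoImplicit false

open Polynomial Filter

namespace Pool.Agent.TWA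

open Pool.Agent.H15JM (RVal)
open Pool.Agent.LU1 (VPos)
open Pool.Agent.LUC (Cl clF)
open Pool.Agent.D2 (Ctx0)
open Pool.Agent.D2P (hen mem_hen)

universe u

variable {k Ω : Type u} [Field k] [Field Ω] [Algebra k Ω] {v : RVal Ω} {δ : Ω}

/-- The field `k(δ)`. -/
abbrev kd (k : Type u) [Field k] [Algebra k Ω] (δ : Ω) : IntermediateField k Ω :=
  IntermediateField.adjoin k {δ}

theorem aeval_mem_kd (P : k[X]) : aeval δ P ∈ kd k δ := by
  rw [aeval_eq_sum_range]
  refine sum_mem fun i _ => ?_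
  rw [Algebra.smul_def]
  exact mul_mem ((kd k δ).algebraMap_mem _)
    (pow_mem (IntermediateField.mem_adjoin_simple_self k δ) i)

theorem val_kd (h : Ctx0 k v) (hδ0 : δ ≠ 0) (hδ : 0 < v δ) {x : Ω} (hx : x ∈ kd k δ)
    (hx0 : x ≠ 0) : ∃ m : ℤ, v x = m * v δ := by
  obtain ⟨r, s, rfl⟩ := (IntermediateField.mem_adjoin_simple_iff k x).1 hx
  have hr : aeval δ r ≠ 0 := fun h0 => hx0 (by rw [h0, zero_div])
  have hs : aeval δ s ≠ 0 := fun h0 => hx0 (by rw [h0, div_zero])
  have key : ∀ P : k[X], aeval δ P ≠ 0 → ∃ m : ℕ, v (aeval δ P) = m * v δ := by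
    intro P hP
    have hP0 : P ≠ 0 := by
      rintro rfl
      exact hP (map_zero _)
    refine ⟨P.natTrailingDegree, (val_aeval h hδ0 hδ (m := P.natTrailingDegree) (fun i hi => ?_) ?_).2.1⟩
    · exact coeff_eq_zero_of_lt_natTrailingDegree hi
    · rw [← trailingCoeff]
      exact mt trailingCoeff_eq_zero.1 hP0
  obtain ⟨m, hm⟩ := key r hr
  obtain ⟨m', hm'⟩ := key s hs
  refine ⟨(m : ℤ) - m', ?_⟩
  rw [v.map_div hr hs, hm, hm']
  push_cast
  ring

theorem val_cl (h : Ctx0 k v) (hδ0 : δ ≠ 0) (hδ : 0 < v δ) {x : Ω}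
    (hx : x ∈ Cl v (kd k δ).toSubfield) (hx0 : x ≠ 0) : ∃ m : ℤ, v x = m * v δ := by
  obtain ⟨a, ha, ha0, h1, -⟩ := LUC.Cl.exists_val hx 0 hx0
  obtain ⟨m, hm⟩ := val_kd h hδ0 hδ ha ha0
  exact ⟨m, by rw [← h1, hm]⟩

/-- A polynomial is a combination of `p`-th powers. -/
theorem exists_decomp [IsAlgClosed k] (p : ℕ) [hp : Fact p.Prime] [CharP k p] (P : k[X]) :
    ∃ g : ℕ → k[X], P = ∑ s ∈ Finset.range p, X ^ s * g s ^ p := by
  induction P using Polynomial.induction_on' with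
  | add P Q hP hQ =>
    obtain ⟨g, hg⟩ := hP
    obtain ⟨g', hg'⟩ := hQ
    refine ⟨fun s => g s + g' s, ?_⟩
    conv_lhs => rw [hg, hg']
    rw [← Finset.sum_add_distrib]
    refine Finset.sum_congr rfl fun s _ => ?_
    rw [add_pow_char, mul_add]
  | monomial n a =>
    obtain ⟨b, hb⟩ := IsAlgClosed.exists_pow_nat_eq a hp.out.pos
    refine ⟨fun s => if s = n % p then C b * X ^ (n / p) else 0, ?_⟩
    rw [Finset.sum_eq_single (n % p)]
    · beta_reduce
      rw [if_pos rfl, mul_pow, ← C_pow, hb, ← pow_mul, ← C_mul_X_pow_eq_monomial]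
      rw [mul_left_comm, ← pow_add]
      congr 2
      conv_lhs => rw [← Nat.mod_add_div n p]
      rw [mul_comm p]
    · intro s _ hs
      beta_reduce
      rw [if_neg hs, zero_pow hp.out.ne_zero, mul_zero]
    · intro h0
      exact absurd (Finset.mem_range.2 (Nat.mod_lt _ hp.out.pos)) h0

theorem exists_decomp_kd [IsAlgClosed k] (p : ℕ) [hp : Fact p.Prime] [CharP k p] {x : Ω}
    (hx : x ∈ kd k δ) : ∃ g : ℕ → Ω, (∀ s, g s ∈ kd k δ) ∧
      x = ∑ s ∈ Finset.range p, δ ^ s * g s ^ p := by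
  obtain ⟨r, s, rfl⟩ := (IntermediateField.mem_adjoin_simple_iff k x).1 hx
  by_cases hs : aeval δ s = 0
  · refine ⟨fun _ => 0, fun _ => zero_mem _, ?_⟩
    rw [hs, div_zero, Finset.sum_eq_zero]
    intro i _
    rw [zero_pow hp.out.ne_zero, mul_zero]
  obtain ⟨g, hg⟩ := exists_decomp p (r * s ^ (p - 1))
  refine ⟨fun i => aeval δ (g i) / aeval δ s, fun i => div_mem (aeval_mem_kd _) (aeval_mem_kd _), ?_⟩
  have h1 := congrArg (aeval δ) hg
  rw [map_mul, map_pow, map_sum] at h1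
  have h2 : aeval δ r / aeval δ s = (aeval δ r * aeval δ s ^ (p - 1)) / aeval δ s ^ p := by
    have h3 : aeval δ s ^ p = aeval δ s * aeval δ s ^ (p - 1) := by
      rw [← pow_succ', Nat.sub_add_cancel hp.out.one_le]
    rw [h3, mul_div_mul_right _ _ (pow_ne_zero _ hs)]
  rw [h2, h1, Finset.sum_div]
  refine Finset.sum_congr rfl fun i _ => ?_
  rw [map_mul, map_pow, map_pow, aeval_X, div_pow, mul_div_assoc]

/-- Distinct powers of `δ` are independent over the `p`-th powers of the closure. -/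
theorem eq_zero_of_sum [IsAlgClosed k] (p : ℕ) [hp : Fact p.Prime] (h : Ctx0 k v)
    (hδ0 : δ ≠ 0) (hδ : 0 < v δ) {y : ℕ → Ω} (hy : ∀ s, y s ∈ Cl v (kd k δ).toSubfield)
    (h0 : ∑ s ∈ Finset.range p, δ ^ s * y s ^ p = 0) : ∀ s < p, y s = 0 := by
  classical
  by_contra hcon
  push Not at hcon
  obtain ⟨s₀, hs₀, hy₀⟩ := hcon
  obtain ⟨S, hS⟩ : ∃ S : Finset ℕ, S = (Finset.range p).filter fun s => y s ≠ 0 := ⟨_, rfl⟩
  have hmem : ∀ s, s ∈ S ↔ s < p ∧ y s ≠ 0 := fun s => by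
    rw [hS, Finset.mem_filter, Finset.mem_range]
  have h1 : ∑ s ∈ S, δ ^ s * y s ^ p = 0 := by
    rw [← h0, hS, Finset.sum_filter]
    refine Finset.sum_congr rfl fun s _ => ?_
    by_cases hs : y s = 0
    · rw [if_neg (not_not.2 hs), hs, zero_pow hp.out.ne_zero, mul_zero]
    · rw [if_pos hs]
  have hval : ∀ s ∈ S, ∃ m : ℤ, v (δ ^ s * y s ^ p) = (s + p * m) * v δ := by
    intro s hs
    obtain ⟨m, hm⟩ := val_cl h hδ0 hδ (hy s) ((hmem s).1 hs).2
    refine ⟨m, ?_⟩
    rw [v.map_mul (pow_ne_zero _ hδ0) (pow_ne_zero _ ((hmem s).1 hs).2), v.map_pow hδ0,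
      v.map_pow ((hmem s).1 hs).2, hm]
    ring
  have h2 := H15JM.RVal.sum_ne_zero v S (fun s => δ ^ s * y s ^ p)
    (fun s hs => mul_ne_zero (pow_ne_zero _ hδ0) (pow_ne_zero _ ((hmem s).1 hs).2)) (by
      intro s hs s' hs' hss
      obtain ⟨m, hm⟩ := hval s hs
      obtain ⟨m', hm'⟩ := hval s' hs'
      have h3 : ((s : ℝ) + p * m) * v δ = (s' + p * m') * v δ := by
        rw [← hm, ← hm']
        exact hss
      have h4 := mul_right_cancel₀ hδ.ne' h3
      have h5 : (s : ℤ) + p * m = s' + p * m' := by exact_mod_cast h4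
      have h6 : (s : ℤ) ≡ s' [ZMOD p] := by
        have h7 : (s : ℤ) - s' = p * (m' - m) := by linarith
        exact (Int.modEq_iff_dvd.2 ⟨m' - m, h7⟩).symm
      have h8 : s ≡ s' [MOD p] := (Int.natCast_modEq_iff).1 h6
      exact Nat.ModEq.eq_of_lt_of_lt h8 ((hmem s).1 hs).1 ((hmem s').1 hs').1)
    ⟨s₀, (hmem s₀).2 ⟨hs₀, hy₀⟩⟩
  exact h2.1 h1

/-- **Separability.** -/
theorem sep_of_cl [IsAlgClosed k] (p : ℕ) [hp : Fact p.Prime] [CharP k p] (h : Ctx0 k v)
    (hδ0 : δ ≠ 0) (hδ : 0 < v δ) {z : Ω} (hz : z ∈ Cl v (kd k δ).toSubfield)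
    (halg : IsAlgebraic (kd k δ) z) : IsSeparable (kd k δ) z := by
  classical
  have : CharP (kd k δ) p := charP_of_injective_algebraMap (algebraMap k (kd k δ)).injective p
  have : CharP Ω p := charP_of_injective_algebraMap (algebraMap k Ω).injective p
  have hint := halg.isIntegral
  rcases Polynomial.separable_or p (minpoly.irreducible hint) with h1 | ⟨-, g, hg, hexp⟩
  · exact h1
  exfalso
  have hdeg : (minpoly (kd k δ) z).natDegree = g.natDegree * p := by
    rw [← hexp, natDegree_expand]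
  have hg0 : 0 < g.natDegree := by
    have h2 := minpoly.natDegree_pos hint
    rw [hdeg] at h2
    exact pos_of_mul_pos_left h2 (Nat.zero_le p)
  choose c hc hc' using fun i : ℕ => exists_decomp_kd (δ := δ) p (g.coeff i).2
  obtain ⟨H, hH⟩ : ∃ H : ℕ → Polynomial (kd k δ), ∀ s, H s =
    ∑ i ∈ Finset.range (g.natDegree + 1), C (⟨c i s, hc i s⟩ : kd k δ) * X ^ i := ⟨_, fun _ => rfl⟩
  have hHz : ∀ s, aeval z (H s) = ∑ i ∈ Finset.range (g.natDegree + 1), c i s * z ^ i := by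
    intro s
    rw [hH, map_sum]
    refine Finset.sum_congr rfl fun i _ => ?_
    rw [map_mul, map_pow, aeval_X, aeval_C]
    rfl
  have hcl : ∀ s, aeval z (H s) ∈ Cl v (kd k δ).toSubfield := by
    intro s
    rw [hHz]
    have h2 : ∀ i, c i s * z ^ i ∈ clF v (kd k δ).toSubfield := fun i =>
      mul_mem (LUC.le_clF (hc i s)) (pow_mem hz i)
    have h3 : ∑ i ∈ Finset.range (g.natDegree + 1), c i s * z ^ i ∈ clF v (kd k δ).toSubfield :=
      sum_mem fun i _ => h2 i
    exact h3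
  have h0 : ∑ s ∈ Finset.range p, δ ^ s * aeval z (H s) ^ p = 0 := by
    have h2 : aeval z (minpoly (kd k δ) z) = 0 := minpoly.aeval _ _
    rw [← hexp, expand_aeval, aeval_eq_sum_range] at h2
    rw [← h2]
    have h3 : ∀ s, δ ^ s * aeval z (H s) ^ p =
        ∑ i ∈ Finset.range (g.natDegree + 1), δ ^ s * (c i s ^ p * (z ^ p) ^ i) := by
      intro s
      rw [hHz, sum_pow_char, Finset.mul_sum]
      refine Finset.sum_congr rfl fun i _ => ?_
      rw [mul_pow, ← pow_mul, ← pow_mul, mul_comm i p]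
    simp only [h3]
    rw [Finset.sum_comm]
    refine Finset.sum_congr rfl fun i _ => ?_
    rw [Algebra.smul_def]
    change _ = (g.coeff i : Ω) * _
    rw [hc' i, Finset.sum_mul]
    refine Finset.sum_congr rfl fun s _ => ?_
    rw [mul_assoc]
  have hzero := eq_zero_of_sum p h hδ0 hδ hcl h0
  have hHs : ∀ s < p, H s = 0 := by
    intro s hs
    refine eq_zero_of_dvd_of_natDegree_lt (minpoly.dvd _ z (hzero s hs)) ?_
    have h2 : (H s).natDegree ≤ g.natDegree := by
      rw [hH]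
      refine natDegree_sum_le_of_forall_le _ _ fun i hi => ?_
      exact (natDegree_C_mul_X_pow_le _ _).trans (by
        have := Finset.mem_range.1 hi
        omega)
    rw [hdeg]
    have h3 : 2 ≤ p := hp.out.two_le
    nlinarith
  apply hg.ne_zero
  ext i
  rw [coeff_zero]
  by_cases hi : i ∈ Finset.range (g.natDegree + 1)
  · have h4 : ∀ s < p, c i s = 0 := by
      intro s hs
      have h5 : (H s).coeff i = ⟨c i s, hc i s⟩ := by
        rw [hH, finsetSum_coeff, Finset.sum_eq_single i]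
        · rw [coeff_C_mul, coeff_X_pow, if_pos rfl, mul_one]
        · intro j _ hj
          rw [coeff_C_mul, coeff_X_pow, if_neg (Ne.symm hj), mul_zero]
        · intro h6
          exact absurd hi h6
      rw [hHs s hs, coeff_zero] at h5
      exact (congrArg Subtype.val h5).symm
    rw [hc' i, Finset.sum_eq_zero]
    · rfl
    · intro s hs
      rw [h4 s (Finset.mem_range.1 hs), zero_pow hp.out.ne_zero, mul_zero]
  · rw [coeff_eq_zero_of_natDegree_lt]
    rw [Finset.mem_range] at hi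
    omega

/-- The values of power series at `δ` are in the closure of `k(δ)`. -/
theorem Ev.mem_cl (hδ : 0 < v δ) {F : PowerSeries k} {x : Ω} (hx : Ev v δ F x) :
    x ∈ Cl v (kd k δ).toSubfield := by
  intro b
  obtain ⟨n, hn⟩ := exists_nat_gt (b / v δ)
  rw [div_lt_iff₀ hδ] at hn
  exact ⟨Polynomial.aeval δ (PowerSeries.trunc n F), aeval_mem_kd _, (hx n).mono hn.le⟩

theorem Ev.mem_hen [IsAlgClosed k] (p : ℕ) [hp : Fact p.Prime] [CharP k p] (h : Ctx0 k v)
    (hδ0 : δ ≠ 0) (hδ : 0 < v δ) {F : PowerSeries k} {x : Ω} (hx : Ev v δ F x)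
    (halg : IsAlgebraic (kd k δ) x) : x ∈ hen v (kd k δ) :=
  D2P.mem_hen.2 ⟨hx.mem_cl hδ, sep_of_cl p h hδ0 hδ (hx.mem_cl hδ) halg⟩

/-- An equation gives algebraicity. -/
theorem isAlgebraic_of_eval₂ (h : Ctx0 k v) (hδ0 : δ ≠ 0) (hδ : 0 < v δ) {z : Ω}
    {Q : Polynomial (Polynomial k)} (hQ : Q ≠ 0)
    (hz : Polynomial.eval₂ (Polynomial.aeval δ : k[X] →ₐ[k] Ω).toRingHom z Q = 0) :
    IsAlgebraic (kd k δ) z := by
  obtain ⟨φ, hφ⟩ : ∃ φ : k[X] →ₐ[k] kd k δ, ∀ P, (φ P : Ω) = aeval δ P :=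
    ⟨aeval ⟨δ, IntermediateField.mem_adjoin_simple_self k δ⟩, fun P => by
      exact (Polynomial.aeval_algHom_apply (kd k δ).val
        (⟨δ, IntermediateField.mem_adjoin_simple_self k δ⟩ : kd k δ) P).symm⟩
  refine ⟨Q.map φ.toRingHom, ?_, ?_⟩
  · refine (Polynomial.map_ne_zero_iff ?_).2 hQ
    rw [injective_iff_map_eq_zero]
    intro P hP
    by_contra h0
    refine aeval_ne_zero h hδ0 hδ h0 ?_
    rw [← hφ]
    exact congrArg Subtype.val hP
  · rw [aeval_def, eval₂_map, ← hz]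
    congr 1
    exact RingHom.ext fun P => hφ P

end Pool.Agent.TWA
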